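import Mathlib

/-!
# Choosing one element in every set of a finite family, with small total pair energy
-/

namespace Pool.Agent.LevyThin

open Finset

/-- the average of a function over a finite set -/
noncomputable def av (B : Finset ℕ) (g : ℕ → ℝ) : ℝ := (∑ a ∈ B, g a) / B.card

lemma av_add (B : Finset ℕ) (g h : ℕ → ℝ) : av B (fun a => g a + h a) = av B g + av B h := by
  unfold av
  rw [Finset.sum_add_distrib, add_div]

lemma av_sum {ι : Type*} (B : Finset ℕ) (s : Finset ι) (g : ι → ℕ → ℝ) :
    av B (fun a => ∑ i ∈ s, g i a) = ∑ i ∈ s, av B (g i) := by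
  unfold av
  rw [Finset.sum_comm, Finset.sum_div]

lemma exists_le_av (B : Finset ℕ) (hB : B.Nonempty) (g : ℕ → ℝ) : ∃ a ∈ B, g a ≤ av B g := by
  have hc : (0 : ℝ) < B.card := by exact_mod_cast hB.card_pos
  obtain ⟨a, ha, h⟩ := Finset.exists_le_of_sum_le (s := B) (f := g) (g := fun _ => av B g) hB (by
    rw [Finset.sum_const, nsmul_eq_mul]
    unfold av
    rw [mul_div_cancel₀ _ hc.ne'])
  exact ⟨a, ha, h⟩

/-- **choice by averaging** -/
theorem exists_choice (B : ℕ → Finset ℕ) (G : ℕ → ℕ → ℕ → ℕ → ℝ) (J : Finset ℕ) :
    ∀ (_ : ∀ j ∈ J, (B j).Nonempty) (u : ℕ → ℕ → ℝ),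
    ∃ f : ℕ → ℕ, (∀ j ∈ J, f j ∈ B j) ∧
      ∑ i ∈ J, u i (f i) + ∑ j ∈ J, ∑ i ∈ J.filter (· < j), G i j (f i) (f j) ≤
        ∑ i ∈ J, av (B i) (u i) +
          ∑ j ∈ J, ∑ i ∈ J.filter (· < j), av (B j) (fun b => av (B i) (fun a => G i j a b)) := by
  induction J using Finset.induction_on_max with
  | empty =>
    intro _ u
    exact ⟨fun _ => 0, by simp, by simp⟩
  | insert m J hm ih =>
    intro hB u
    have hmJ : m ∉ J := fun h => lt_irrefl _ (hm m h)
    -- choose the value at `m` first
    obtain ⟨b, hb, hb1⟩ := exists_le_av (B m) (hB m (Finset.mem_insert_self _ _))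
      (fun b => u m b + ∑ i ∈ J, av (B i) (fun a => G i m a b))
    rw [av_add, av_sum] at hb1
    obtain ⟨f, hf, hf1⟩ := ih (fun j hj => hB j (Finset.mem_insert_of_mem hj))
      (fun i a => u i a + G i m a b)
    refine ⟨Function.update f m b, ?_, ?_⟩
    · intro j hj
      rw [Finset.mem_insert] at hj
      rcases hj with rfl | hj
      · simpa using hb
      · have hne : j ≠ m := by
          rintro rfl
          exact hmJ hj
        rw [Function.update_of_ne hne]
        exact hf j hj
    · have e1 : (insert m J).filter (· < m) = J := by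
        ext i
        rw [Finset.mem_filter, Finset.mem_insert]
        constructor
        · rintro ⟨rfl | h, h'⟩
          · exact absurd h' (lt_irrefl _)
          · exact h
        · intro h
          exact ⟨Or.inr h, hm i h⟩
      have e2 : ∀ j ∈ J, (insert m J).filter (· < j) = J.filter (· < j) := by
        intro j hj
        ext i
        rw [Finset.mem_filter, Finset.mem_filter, Finset.mem_insert]
        constructor
        · rintro ⟨rfl | h, h'⟩
          · exact absurd (h'.trans (hm j hj)) (lt_irrefl _)
          · exact ⟨h, h'⟩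
        · rintro ⟨h, h'⟩
          exact ⟨Or.inr h, h'⟩
      have e3 : ∀ j ∈ J, Function.update f m b j = f j := by
        intro j hj
        have hne : j ≠ m := by
          rintro rfl
          exact hmJ hj
        exact Function.update_of_ne hne _ _
      have s1 : ∑ i ∈ insert m J, u i (Function.update f m b i) = u m b + ∑ i ∈ J, u i (f i) := by
        rw [Finset.sum_insert hmJ, Function.update_self]
        congr 1
        exact Finset.sum_congr rfl fun i hi => by rw [e3 i hi]
      have s2 : ∑ j ∈ insert m J, ∑ i ∈ (insert m J).filter (· < j),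
          G i j (Function.update f m b i) (Function.update f m b j) =
          ∑ i ∈ J, G i m (f i) b + ∑ j ∈ J, ∑ i ∈ J.filter (· < j), G i j (f i) (f j) := by
        rw [Finset.sum_insert hmJ, e1, Function.update_self]
        congr 1
        · exact Finset.sum_congr rfl fun i hi => by rw [e3 i hi]
        · refine Finset.sum_congr rfl fun j hj => ?_
          rw [e2 j hj]
          refine Finset.sum_congr rfl fun i hi => ?_
          rw [e3 j hj, e3 i (Finset.mem_filter.mp hi).1]
      have s3 : ∑ i ∈ insert m J, av (B i) (u i) = av (B m) (u m) + ∑ i ∈ J, av (B i) (u i) :=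
        Finset.sum_insert hmJ
      have s4 : ∑ j ∈ insert m J, ∑ i ∈ (insert m J).filter (· < j),
          av (B j) (fun b => av (B i) (fun a => G i j a b)) =
          ∑ i ∈ J, av (B m) (fun b => av (B i) (fun a => G i m a b)) +
          ∑ j ∈ J, ∑ i ∈ J.filter (· < j), av (B j) (fun b => av (B i) (fun a => G i j a b)) := by
        rw [Finset.sum_insert hmJ, e1]
        congr 1
        exact Finset.sum_congr rfl fun j hj => by rw [e2 j hj]
      rw [s1, s2, s3, s4]
      have s5 : ∑ i ∈ J, (u i (f i) + G i m (f i) b) =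
          ∑ i ∈ J, u i (f i) + ∑ i ∈ J, G i m (f i) b := Finset.sum_add_distrib
      have s6 : ∑ i ∈ J, av (B i) (fun a => u i a + G i m a b) =
          ∑ i ∈ J, av (B i) (u i) + ∑ i ∈ J, av (B i) (fun a => G i m a b) := by
        rw [← Finset.sum_add_distrib]
        exact Finset.sum_congr rfl fun i _ => av_add _ _ _
      rw [s5, s6] at hf1
      linarith

end Pool.Agent.LevyThin
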