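import Mathlib
import Pool.Agent.Lib.PrimePairsMoment
import Pool.Agent.Lib.PNT

/-!
# Prime pairs: bounds on average over dyadic blocks of primes
-/

namespace Pool.Agent.LevyThin

open Finset
open Pool.Agent.Lib.PrimePairs

lemma F_one_le {n : ℕ} (hn : 0 < n) : 1 ≤ F n := by
  unfold F
  have h1 : (1 : ℕ) ∈ n.divisors := Nat.mem_divisors.mpr ⟨one_dvd _, hn.ne'⟩
  have := Finset.single_le_sum (f := fun e : ℕ => (1 : ℝ) / e) (fun e _ => by positivity) h1
  simpa using this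

lemma F_mono {m n : ℕ} (hn : 0 < n) (h : m ∣ n) : F m ≤ F n := by
  unfold F
  exact Finset.sum_le_sum_of_subset_of_nonneg (Nat.divisors_subset_of_dvd hn.ne' h)
    (fun e _ _ => by positivity)

/-- the constant of the sieve bound -/
noncomputable def K0 : ℝ := 8 * 48 ^ 2 + 64

lemma K0_pos : 0 < K0 := by unfold K0; norm_num

/-- prime pairs in an interval `(M, M+N]` with `√X ≤ M` and `N ≤ X` -/
lemma pairs_le {X d M N : ℕ} (hX : 2 ^ 48 ≤ X) (hd : 0 < d) (hM : Real.sqrt X ≤ M) (hN : N ≤ X) :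
    (((Ioc M (M + N)).filter (fun n => n.Prime ∧ (n + d).Prime)).card : ℝ) ≤
      K0 * F (2 * d) ^ 2 * X / Real.log X ^ 2 := by
  obtain ⟨y, hy2, hy12, hyP, hylog⟩ := exists_level hX
  have hy1 : (1 : ℝ) ≤ y := by exact_mod_cast (by omega : 1 ≤ y)
  have hyM : y ^ 2 ≤ M := by
    have h1 : (y : ℝ) ^ 2 ≤ (y : ℝ) ^ 12 := pow_le_pow_right₀ hy1 (by norm_num)
    have h2 : (y : ℝ) ^ 2 ≤ M := by linarith
    exact_mod_cast h2
  have h := card_prime_pairs_le M N d y hd hy2 hyM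
  refine h.trans ?_
  have hXpos : (0 : ℝ) < X := by
    have : 0 < X := by omega
    exact_mod_cast this
  have hX1 : (1 : ℝ) ≤ X := by
    have : 1 ≤ X := by omega
    exact_mod_cast this
  have hlogX : 0 < Real.log X := Real.log_pos (by
    have : 1 < X := by omega
    exact_mod_cast this)
  have hlogy : 0 < Real.log y := by
    have : 0 < Real.log X / 48 := by positivity
    linarith
  have hNr : (N : ℝ) ≤ X := by exact_mod_cast hN
  have h1 : 8 * F (2 * d) ^ 2 * N / Real.log y ^ 2 ≤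
      8 * 48 ^ 2 * F (2 * d) ^ 2 * X / Real.log X ^ 2 := by
    have h2 : (Real.log X / 48) ^ 2 ≤ Real.log y ^ 2 := by gcongr
    calc 8 * F (2 * d) ^ 2 * N / Real.log y ^ 2 ≤
        8 * F (2 * d) ^ 2 * X / (Real.log X / 48) ^ 2 := by
          gcongr
      _ = _ := by field_simp
  have hF1 : 1 ≤ F (2 * d) ^ 2 := by
    have := F_one_le (n := 2 * d) (by omega)
    nlinarith
  have h3 : Real.sqrt X ≤ 64 * F (2 * d) ^ 2 * X / Real.log X ^ 2 := by
    rw [le_div_iff₀ (by positivity)]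
    have h4 := log_le_eight_root (P := X) (by omega)
    have hs0 : 0 ≤ Real.sqrt X := Real.sqrt_nonneg _
    have hss : Real.sqrt X * Real.sqrt X = X := Real.mul_self_sqrt hXpos.le
    have hs1 : 1 ≤ Real.sqrt X := by
      rw [Real.one_le_sqrt]
      exact hX1
    have h5 : Real.log X ^ 2 ≤ 64 * Real.sqrt X := by
      rw [← pow_le_pow_iff_left₀ (by positivity) (by positivity) (two_ne_zero)]
      nlinarith
    calc Real.sqrt X * Real.log X ^ 2 ≤ Real.sqrt X * (64 * Real.sqrt X) := by gcongr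
      _ = 64 * 1 * (Real.sqrt X * Real.sqrt X) := by ring
      _ = 64 * 1 * X := by rw [hss]
      _ ≤ 64 * F (2 * d) ^ 2 * X := by gcongr
  have h6 : K0 * F (2 * d) ^ 2 * X / Real.log X ^ 2 =
      8 * 48 ^ 2 * F (2 * d) ^ 2 * X / Real.log X ^ 2 + 64 * F (2 * d) ^ 2 * X / Real.log X ^ 2 := by
    unfold K0
    ring
  rw [h6]
  linarith

/-- the primes of the dyadic block `(2^j, 2^(j+1)]` -/
def A (j : ℕ) : Finset ℕ := (Ioc (2 ^ j) (2 ^ (j + 1))).filter Nat.Prime

lemma mem_A {j p : ℕ} : p ∈ A j ↔ (2 ^ j < p ∧ p ≤ 2 ^ (j + 1)) ∧ p.Prime := by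
  simp [A]

/-- the fourth moment along multiples of `4` -/
lemma sum_F_four (N : ℕ) : ∑ d ∈ Icc 1 N, F (4 * d) ^ 4 ≤ 4 * W ^ 4 * N := by
  have h6 : ∑ d ∈ Icc 1 N, F (4 * d) ^ 4 = ∑ D ∈ (Icc 1 N).image (fun d => 4 * d), F D ^ 4 := by
    rw [Finset.sum_image (fun a _ b _ h => by simpa using h)]
  rw [h6]
  have hsub : (Icc 1 N).image (fun d => 4 * d) ⊆ Icc 1 (4 * N) := by
    intro D hD
    rw [Finset.mem_image] at hD
    obtain ⟨d, hd, rfl⟩ := hD
    rw [Finset.mem_Icc] at hd ⊢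
    omega
  refine (Finset.sum_le_sum_of_subset_of_nonneg hsub (fun D _ _ => by
    have := F_nonneg D
    positivity)).trans ?_
  have := sum_F_pow_four_le (4 * N)
  push_cast at this
  linarith

/-- the average of `F(4(b-a))²` over pairs of primes in two dyadic blocks -/
lemma pair_energy : ∃ K : ℝ, 0 < K ∧ ∀ i j : ℕ, 48 ≤ i → i < j →
    ∑ a ∈ A i, ∑ b ∈ A j, F (4 * (b - a)) ^ 2 ≤ K * (2 ^ i * 2 ^ j) / (i : ℝ) ^ 2 := by
  refine ⟨8 * K0 * W ^ 4 / Real.log 2 ^ 2 + 1, ?_, ?_⟩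
  · have := W_nonneg
    have := K0_pos
    have := Real.log_pos (show (1 : ℝ) < 2 by norm_num)
    positivity
  intro i j hi hij
  have hi0 : (0 : ℝ) < i := by exact_mod_cast (by omega : 0 < i)
  have hlog2 : 0 < Real.log 2 := Real.log_pos (by norm_num)
  have hP : 2 ^ 48 ≤ 2 ^ i := Nat.pow_le_pow_right (by norm_num) hi
  -- Step 1: pass to differences
  have h1 : ∀ a ∈ A i, ∑ b ∈ A j, F (4 * (b - a)) ^ 2 ≤
      ∑ d ∈ Icc 1 (2 ^ (j + 1)), if (a + d).Prime then F (4 * d) ^ 2 else 0 := by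
    intro a ha
    rw [mem_A] at ha
    rw [← Finset.sum_filter]
    have hab : ∀ b ∈ A j, a < b := by
      intro b hb
      rw [mem_A] at hb
      have : 2 ^ (i + 1) ≤ 2 ^ j := Nat.pow_le_pow_right (by norm_num) hij
      omega
    have h2 : ∑ b ∈ A j, F (4 * (b - a)) ^ 2 =
        ∑ d ∈ (A j).image (fun b => b - a), F (4 * d) ^ 2 := by
      rw [Finset.sum_image]
      intro b hb c hc hbc
      have := hab b hb
      have := hab c hc
      simp only at hbc
      omega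
    rw [h2]
    apply Finset.sum_le_sum_of_subset_of_nonneg
    · intro d hd
      rw [Finset.mem_image] at hd
      obtain ⟨b, hb, rfl⟩ := hd
      have h3 := hab b hb
      rw [mem_A] at hb
      rw [Finset.mem_filter, Finset.mem_Icc]
      refine ⟨⟨by omega, by omega⟩, ?_⟩
      rw [Nat.add_sub_cancel' h3.le]
      exact hb.2
    · intro d _ _
      positivity
  have h2 : ∑ a ∈ A i, ∑ b ∈ A j, F (4 * (b - a)) ^ 2 ≤
      ∑ d ∈ Icc 1 (2 ^ (j + 1)), F (4 * d) ^ 2 * rr (2 ^ i) d := by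
    refine (Finset.sum_le_sum h1).trans ?_
    rw [Finset.sum_comm]
    apply Finset.sum_le_sum
    intro d _
    rw [← Finset.sum_filter, Finset.sum_const, nsmul_eq_mul, mul_comm]
    unfold rr
    have h3 : (A i).filter (fun a => (a + d).Prime) =
        (Ioc (2 ^ i) (2 * 2 ^ i)).filter (fun n => n.Prime ∧ (n + d).Prime) := by
      unfold A
      rw [Finset.filter_filter, pow_succ, mul_comm (2 ^ i) 2]
    rw [h3]
  refine h2.trans ?_
  -- Step 2: sieve
  have hPr : ((2 ^ i : ℕ) : ℝ) = (2 : ℝ) ^ i := by push_cast; ring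
  have hlogP : Real.log ((2 ^ i : ℕ) : ℝ) = i * Real.log 2 := by
    rw [hPr, Real.log_pow]
  have h3 : ∀ d ∈ Icc 1 (2 ^ (j + 1)), F (4 * d) ^ 2 * rr (2 ^ i) d ≤
      K0 * 2 ^ i / (i * Real.log 2) ^ 2 * F (4 * d) ^ 4 := by
    intro d hd
    rw [Finset.mem_Icc] at hd
    have h4 := pairs_le (X := 2 ^ i) (d := d) (M := 2 ^ i) (N := 2 ^ i) hP (by omega) (by
      rw [Real.sqrt_le_left (by positivity)]
      have : (1 : ℝ) ≤ ((2 ^ i : ℕ) : ℝ) := by
        exact_mod_cast Nat.one_le_two_pow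
      nlinarith) le_rfl
    rw [← two_mul] at h4
    have h5 : F (2 * d) ≤ F (4 * d) := F_mono (by omega) ⟨2, by ring⟩
    have h6 : rr (2 ^ i) d ≤ K0 * F (4 * d) ^ 2 * 2 ^ i / (i * Real.log 2) ^ 2 := by
      unfold rr
      refine h4.trans ?_
      rw [hlogP, hPr]
      have := K0_pos
      have := F_nonneg (2 * d)
      gcongr
    calc F (4 * d) ^ 2 * rr (2 ^ i) d ≤
        F (4 * d) ^ 2 * (K0 * F (4 * d) ^ 2 * 2 ^ i / (i * Real.log 2) ^ 2) := by gcongr
      _ = _ := by ring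
  refine (Finset.sum_le_sum h3).trans ?_
  rw [← Finset.mul_sum]
  have h4 := sum_F_four (2 ^ (j + 1))
  push_cast at h4
  have hK0 := K0_pos
  have hW := W_nonneg
  calc K0 * 2 ^ i / (i * Real.log 2) ^ 2 * ∑ d ∈ Icc 1 (2 ^ (j + 1)), F (4 * d) ^ 4
      ≤ K0 * 2 ^ i / (i * Real.log 2) ^ 2 * (4 * W ^ 4 * 2 ^ (j + 1)) := by
        gcongr
    _ = (8 * K0 * W ^ 4 / Real.log 2 ^ 2) * (2 ^ i * 2 ^ j) / (i : ℝ) ^ 2 := by
        field_simp
        ring
    _ ≤ _ := by
        gcongr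
        linarith

/-- two-sided bounds for the number of primes -/
lemma pi_bounds : ∃ n0 : ℕ, ∀ n ≥ n0, 9 / 10 * (n : ℝ) ≤ (Nat.primeCounting n : ℝ) * Real.log n ∧
    (Nat.primeCounting n : ℝ) * Real.log n ≤ 11 / 10 * n := by
  have h := Pool.Agent.Lib.PNT.pi_nat
  rw [Metric.tendsto_atTop] at h
  obtain ⟨n0, hn0⟩ := h (1 / 10) (by norm_num)
  refine ⟨max n0 1, fun n hn => ?_⟩
  have hn1 : 0 < n := by
    have := le_max_right n0 1
    omega
  have h1 := hn0 n (le_trans (le_max_left _ _) hn)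
  have hn' : (0 : ℝ) < n := by exact_mod_cast hn1
  rw [Real.dist_eq, abs_lt] at h1
  obtain ⟨h2, h3⟩ := h1
  constructor
  · have h4 : 9 / 10 < (Nat.primeCounting n : ℝ) * Real.log n / n := by linarith
    rw [lt_div_iff₀ hn'] at h4
    exact h4.le
  · have h4 : (Nat.primeCounting n : ℝ) * Real.log n / n < 11 / 10 := by linarith
    rw [div_lt_iff₀ hn'] at h4
    exact h4.le

/-- the number of primes in an interval -/
lemma card_primes_Ioc {a b : ℕ} (hab : a ≤ b) :
    (((Ioc a b).filter Nat.Prime).card : ℝ) =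
      (Nat.primeCounting b : ℝ) - Nat.primeCounting a := by
  have h0 : ∀ n : ℕ, Nat.primeCounting n = ((Ioc 0 n).filter Nat.Prime).card := by
    intro n
    rw [Nat.primeCounting, Nat.primeCounting', Nat.count_eq_card_filter_range]
    congr 1
    ext p
    simp only [Finset.mem_filter, Finset.mem_range, Finset.mem_Ioc]
    constructor
    · rintro ⟨h1, h2⟩
      exact ⟨⟨h2.pos, by omega⟩, h2⟩
    · rintro ⟨⟨h1, h2⟩, h3⟩
      exact ⟨by omega, h3⟩
  have h1 : ((Ioc 0 b).filter Nat.Prime).card =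
      ((Ioc 0 a).filter Nat.Prime).card + ((Ioc a b).filter Nat.Prime).card := by
    rw [← Finset.card_union_of_disjoint]
    · congr 1
      rw [← Finset.filter_union, Finset.Ioc_union_Ioc_eq_Ioc (Nat.zero_le _) hab]
    · apply Finset.disjoint_filter_filter
      rw [Finset.disjoint_left]
      intro x hx hx'
      rw [Finset.mem_Ioc] at hx hx'
      omega
  rw [h0 b, h0 a, h1]
  push_cast
  ring

/-- dyadic blocks contain enough primes -/
lemma card_A_ge : ∃ j0 : ℕ, ∀ j ≥ j0, (2 : ℝ) ^ j / (2 * j) ≤ (A j).card := by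
  obtain ⟨n0, hn0⟩ := pi_bounds
  refine ⟨max n0 20, fun j hj => ?_⟩
  have hj20 : 20 ≤ j := le_trans (le_max_right _ _) hj
  have hjn : n0 ≤ j := le_trans (le_max_left _ _) hj
  have hlt : ∀ k : ℕ, k ≤ 2 ^ k := fun k => (Nat.lt_two_pow_self).le
  have h1 := (hn0 (2 ^ j) (hjn.trans (hlt j))).2
  have h2 := (hn0 (2 ^ (j + 1)) ((hjn.trans (Nat.le_succ j)).trans (hlt (j + 1)))).1
  have hlog2 : 0 < Real.log 2 := Real.log_pos (by norm_num)
  have hlog2' : Real.log 2 < 0.6931471808 := Real.log_two_lt_d9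
  have hjr : (20 : ℝ) ≤ j := by exact_mod_cast hj20
  push_cast at h1 h2
  rw [Real.log_pow] at h1 h2
  have h3 : ((A j).card : ℝ) = (Nat.primeCounting (2 ^ (j + 1)) : ℝ) - Nat.primeCounting (2 ^ j) := by
    unfold A
    exact card_primes_Ioc (Nat.pow_le_pow_right (by norm_num) (Nat.le_succ j))
  rw [h3]
  set x : ℝ := (Nat.primeCounting (2 ^ (j + 1)) : ℝ) with hx
  set y : ℝ := (Nat.primeCounting (2 ^ j) : ℝ) with hy
  set T : ℝ := (2 : ℝ) ^ j with hT
  have hT0 : 0 < T := by positivity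
  push_cast at h2
  have hT1 : (2 : ℝ) ^ (j + 1) = 2 * T := by rw [hT]; ring
  rw [hT1] at h2
  have hx1 : 9 / 5 * T / ((j + 1) * Real.log 2) ≤ x := by
    rw [div_le_iff₀ (by positivity)]
    linarith
  have hy1 : y ≤ 11 / 10 * T / (j * Real.log 2) := by
    rw [le_div_iff₀ (by positivity)]
    linarith
  have h5 : T / (2 * j) ≤ 9 / 5 * T / ((j + 1) * Real.log 2) - 11 / 10 * T / (j * Real.log 2) := by
    have hj0 : (0 : ℝ) < j := by linarith
    have h6 : 9 / 5 * T / ((j + 1) * Real.log 2) ≥ 12 / 7 * T / (j * Real.log 2) := by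
      rw [ge_iff_le, div_le_div_iff₀ (by positivity) (by positivity)]
      have : 0 ≤ T * Real.log 2 * (j - 20) := by
        apply mul_nonneg (by positivity)
        linarith
      nlinarith [mul_pos hT0 hlog2]
    have h7 : T / (2 * j) ≤ 6 / 10 * T / (j * Real.log 2) := by
      rw [div_le_div_iff₀ (by positivity) (by positivity)]
      have : 0 < T * j := by positivity
      nlinarith
    have h8 : 12 / 7 * T / (j * Real.log 2) - 11 / 10 * T / (j * Real.log 2) ≥
        6 / 10 * T / (j * Real.log 2) := by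
      have h9 : 12 / 7 * T / (j * Real.log 2) - 11 / 10 * T / (j * Real.log 2) -
        6 / 10 * T / (j * Real.log 2) = (12 / 7 - 11 / 10 - 6 / 10) * (T / (j * Real.log 2)) := by
        ring
      have h10 : 0 ≤ (12 / 7 - 11 / 10 - 6 / 10) * (T / (j * Real.log 2)) := by
        apply mul_nonneg (by norm_num)
        positivity
      linarith
    linarith
  linarith

end Pool.Agent.LevyThin
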