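import Mathlib
import Pool.Agent.LevyThin.Sieve
import Pool.Agent.LevyThin.Select

/-!
# The additive energy of a sequence and a set of primes
-/

namespace Pool.Agent.LevyThin

open Finset
open Pool.Agent.Lib.PrimePairs
open scoped Pointwise

/-- the additive energy is bounded by the numbers of prime pairs -/
lemma energy_le (J Q : Finset ℕ) (h : ℕ → ℕ) (hh : ∀ i ∈ J, ∀ j ∈ J, i < j → h i < h j)
    (hQ : ∀ q ∈ Q, q.Prime) :
    (Finset.addEnergy (J.image h) Q : ℝ) ≤ J.card * Q.card +
      2 * ∑ j ∈ J, ∑ i ∈ J.filter (· < j), ((Q.filter (fun q => (q + (h j - h i)).Prime)).card : ℝ) := by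
  classical
  have hinj : Set.InjOn h J := by
    intro i hi j hj hij
    rcases lt_trichotomy i j with hlt | heq | hgt
    · exact absurd hij (hh i hi j hj hlt).ne
    · exact heq
    · exact absurd hij.symm (hh j hj i hi hgt).ne
  set c : ℕ → ℕ → ℕ := fun i j => ((Q ×ˢ Q).filter (fun y => h i + y.1 = h j + y.2)).card with hc
  have h1 : Finset.addEnergy (J.image h) Q = ∑ j ∈ J, ∑ i ∈ J, c i j := by
    unfold Finset.addEnergy
    rw [Finset.card_filter, Finset.sum_product, Finset.sum_product, Finset.sum_comm,
      Finset.sum_image (fun i hi j hj hij => hinj hi hj hij)]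
    apply Finset.sum_congr rfl
    intro j _
    rw [Finset.sum_image (fun i hi j hj hij => hinj hi hj hij)]
    apply Finset.sum_congr rfl
    intro i _
    rw [hc]
    simp only
    rw [Finset.card_filter]
  set N : ℕ → ℕ → ℕ := fun i j => (Q.filter (fun q => (q + (h j - h i)).Prime)).card with hN
  have hcc : ∀ j ∈ J, c j j ≤ Q.card := by
    intro j _
    rw [hc]
    simp only
    apply Finset.card_le_card_of_injOn (fun y => y.1)
    · intro y hy
      simp only [Finset.coe_filter, Finset.mem_product, Set.mem_ofPred_eq] at hy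
      exact hy.1.1
    · intro y hy z hz hyz
      simp only [Finset.coe_filter, Finset.mem_product, Set.mem_ofPred_eq] at hy hz
      have e1 := hy.2
      have e2 := hz.2
      simp only at hyz
      ext
      · exact hyz
      · omega
  have hc1 : ∀ i ∈ J, ∀ j ∈ J, i < j → c i j ≤ N i j := by
    intro i hi j hj hij
    have hlt := hh i hi j hj hij
    rw [hc, hN]
    simp only
    apply Finset.card_le_card_of_injOn (fun y => y.2)
    · intro y hy
      simp only [Finset.coe_filter, Finset.mem_product, Set.mem_ofPred_eq] at hy ⊢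
      refine ⟨hy.1.2, ?_⟩
      have e1 : y.2 + (h j - h i) = y.1 := by omega
      rw [e1]
      exact hQ _ hy.1.1
    · intro y hy z hz hyz
      simp only [Finset.coe_filter, Finset.mem_product, Set.mem_ofPred_eq] at hy hz
      have e1 := hy.2
      have e2 := hz.2
      simp only at hyz
      ext
      · omega
      · exact hyz
  have hc2 : ∀ i ∈ J, ∀ j ∈ J, j < i → c i j ≤ N j i := by
    intro i hi j hj hij
    have hlt := hh j hj i hi hij
    rw [hc, hN]
    simp only
    apply Finset.card_le_card_of_injOn (fun y => y.1)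
    · intro y hy
      simp only [Finset.coe_filter, Finset.mem_product, Set.mem_ofPred_eq] at hy ⊢
      refine ⟨hy.1.1, ?_⟩
      have e1 : y.1 + (h i - h j) = y.2 := by omega
      rw [e1]
      exact hQ _ hy.1.2
    · intro y hy z hz hyz
      simp only [Finset.coe_filter, Finset.mem_product, Set.mem_ofPred_eq] at hy hz
      have e1 := hy.2
      have e2 := hz.2
      simp only at hyz
      ext
      · exact hyz
      · omega
  have h2 : ∀ j ∈ J, ∑ i ∈ J, c i j ≤
      Q.card + (∑ i ∈ J.filter (· < j), N i j + ∑ i ∈ J.filter (j < ·), N j i) := by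
    intro j hj
    have e1 : ∑ i ∈ J, c i j = ∑ i ∈ J.filter (· < j), c i j +
        (∑ i ∈ J.filter (j < ·), c i j + ∑ i ∈ J.filter (· = j), c i j) := by
      rw [← Finset.sum_filter_add_sum_filter_not J (· < j)]
      congr 1
      rw [← Finset.sum_filter_add_sum_filter_not (J.filter (fun i => ¬ i < j)) (j < ·)]
      congr 1
      · apply Finset.sum_congr _ (fun _ _ => rfl)
        ext i
        simp only [Finset.mem_filter]
        constructor
        · rintro ⟨⟨h1, _⟩, h3⟩
          exact ⟨h1, h3⟩
        · rintro ⟨h1, h3⟩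
          exact ⟨⟨h1, by omega⟩, h3⟩
      · apply Finset.sum_congr _ (fun _ _ => rfl)
        ext i
        simp only [Finset.mem_filter]
        constructor
        · rintro ⟨⟨h1, h2⟩, h3⟩
          exact ⟨h1, by omega⟩
        · rintro ⟨h1, h3⟩
          exact ⟨⟨h1, by omega⟩, by omega⟩
    have e2 : ∑ i ∈ J.filter (· = j), c i j = c j j := by
      rw [Finset.filter_eq' J j, if_pos hj, Finset.sum_singleton]
    rw [e1, e2]
    have e3 : ∑ i ∈ J.filter (· < j), c i j ≤ ∑ i ∈ J.filter (· < j), N i j :=
      Finset.sum_le_sum fun i hi => by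
        rw [Finset.mem_filter] at hi
        exact hc1 i hi.1 j hj hi.2
    have e4 : ∑ i ∈ J.filter (j < ·), c i j ≤ ∑ i ∈ J.filter (j < ·), N j i :=
      Finset.sum_le_sum fun i hi => by
        rw [Finset.mem_filter] at hi
        exact hc2 i hi.1 j hj hi.2
    have e5 := hcc j hj
    omega
  have h3 : ∑ j ∈ J, ∑ i ∈ J.filter (j < ·), N j i = ∑ j ∈ J, ∑ i ∈ J.filter (· < j), N i j := by
    apply Finset.sum_comm'
    intro x y
    simp only [Finset.mem_filter]
    tauto
  have h4 : Finset.addEnergy (J.image h) Q ≤ J.card * Q.card +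
      2 * ∑ j ∈ J, ∑ i ∈ J.filter (· < j), N i j := by
    rw [h1]
    refine (Finset.sum_le_sum h2).trans (le_of_eq ?_)
    rw [Finset.sum_add_distrib, Finset.sum_add_distrib, h3, Finset.sum_const, smul_eq_mul]
    ring
  exact_mod_cast h4

end Pool.Agent.LevyThin
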