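import Mathlib
import Pool.Agent.LevyThin.Main

/-!
# Sets of primes of positive relative density: good dyadic blocks and the choice
-/

namespace Pool.Agent.LevyThin

open Finset
open Pool.Agent.Lib.PrimePairs

open Classical in
/-- the part of `U` in the dyadic block `(2^j, 2^(j+1)]` -/
noncomputable def B (U : Set ℕ) (j : ℕ) : Finset ℕ := (A j).filter (· ∈ U)

open Classical in
lemma mem_B {U : Set ℕ} {j p : ℕ} : p ∈ B U j ↔ p ∈ A j ∧ p ∈ U := by
  unfold B
  rw [Finset.mem_filter]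

lemma B_subset (U : Set ℕ) (j : ℕ) : B U j ⊆ A j := fun _ hp => (mem_B.mp hp).1

open Classical in
/-- the good indices -/
noncomputable def I (U : Set ℕ) (η : ℝ) (s : ℕ) : Finset ℕ :=
  (Ico (2 ^ s) (2 ^ (s + 1))).filter (fun n => η * 2 ^ n / n ≤ ((B U n).card : ℝ))

lemma mem_I {U : Set ℕ} {η : ℝ} {s n : ℕ} : n ∈ I U η s ↔
    (2 ^ s ≤ n ∧ n < 2 ^ (s + 1)) ∧ η * 2 ^ n / n ≤ ((B U n).card : ℝ) := by
  simp [I]

/-- the counting function of a set of primes -/
noncomputable def cnt (U : Set ℕ) (x : ℕ) : ℕ := (U ∩ Set.Iic x).ncard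

lemma cnt_sub_le (U : Set ℕ) (hU : ∀ p ∈ U, p.Prime) (i b : ℕ) :
    cnt U (2 ^ (i + b)) ≤ Nat.primeCounting (2 ^ i) + ∑ n ∈ Ico i (i + b), (B U n).card := by
  classical
  have h0 : Nat.primeCounting (2 ^ i) = ((range (2 ^ i + 1)).filter Nat.Prime).card := by
    rw [Nat.primeCounting, Nat.primeCounting', Nat.count_eq_card_filter_range]
  have hsub : (U ∩ Set.Iic (2 ^ (i + b))) ⊆
      (((range (2 ^ i + 1)).filter Nat.Prime ∪ (Ico i (i + b)).biUnion (fun n => B U n) :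
        Finset ℕ) : Set ℕ) := by
    rintro p ⟨hp, hpx⟩
    rw [Set.mem_Iic] at hpx
    rw [Finset.mem_coe, Finset.mem_union]
    by_cases hpi : p ≤ 2 ^ i
    · left
      rw [Finset.mem_filter, Finset.mem_range]
      exact ⟨by omega, hU p hp⟩
    · right
      push Not at hpi
      rw [Finset.mem_biUnion]
      -- the block of `p`
      have hp1 : p - 1 ≠ 0 := by
        have : 1 ≤ 2 ^ i := Nat.one_le_two_pow
        omega
      refine ⟨Nat.log 2 (p - 1), ?_, ?_⟩
      · rw [Finset.mem_Ico]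
        constructor
        · rw [Nat.le_log_iff_pow_le (by norm_num) hp1]
          omega
        · rw [Nat.log_lt_iff_lt_pow (by norm_num) hp1]
          omega
      · rw [mem_B, mem_A]
        have h1 : 2 ^ Nat.log 2 (p - 1) ≤ p - 1 := Nat.pow_log_le_self 2 hp1
        have h2 : p - 1 < 2 ^ (Nat.log 2 (p - 1) + 1) := Nat.lt_pow_succ_log_self (by norm_num) _
        exact ⟨⟨⟨by omega, by omega⟩, hU p hp⟩, hp⟩
  unfold cnt
  rw [h0]
  calc (U ∩ Set.Iic (2 ^ (i + b))).ncard ≤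
      (((range (2 ^ i + 1)).filter Nat.Prime ∪ (Ico i (i + b)).biUnion (fun n => B U n) :
        Finset ℕ) : Set ℕ).ncard := Set.ncard_le_ncard hsub (Finset.finite_toSet _)
    _ = ((range (2 ^ i + 1)).filter Nat.Prime ∪ (Ico i (i + b)).biUnion (fun n => B U n)).card :=
        Set.ncard_coe_finset _
    _ ≤ _ := (Finset.card_union_le _ _).trans (Nat.add_le_add_left Finset.card_biUnion_le _)

/-- many good indices in every scale -/
lemma many_good (U : Set ℕ) (hU : ∀ p ∈ U, p.Prime)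
    (hd : ∃ δ : ℝ, 0 < δ ∧ ∃ x0 : ℕ, ∀ x ≥ x0, δ * x / Real.log x ≤ (cnt U x : ℝ)) :
    ∃ η : ℝ, 0 < η ∧ ∃ γ : ℝ, 0 < γ ∧ ∃ s0 : ℕ, ∀ s ≥ s0,
      γ * 2 ^ s ≤ ((I U η s).card : ℝ) := by
  obtain ⟨δ, hδ, x0, hx0⟩ := hd
  obtain ⟨n0, hn0⟩ := pi_bounds
  obtain ⟨b, hb⟩ : ∃ b : ℕ, 4 / δ ≤ (2 : ℝ) ^ b := by
    obtain ⟨b, hb⟩ := pow_unbounded_of_one_lt (4 / δ) (show (1 : ℝ) < 2 by norm_num)
    exact ⟨b, hb.le⟩
  have hb4 : 4 ≤ δ * 2 ^ b := by
    rw [div_le_iff₀ hδ] at hb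
    linarith
  have hlt : ∀ k : ℕ, k ≤ 2 ^ k := fun k => (Nat.lt_two_pow_self).le
  set b' := b + 1 with hb'
  set η : ℝ := 1 / (2 ^ b' * b') with hη
  have hb'pos : (0 : ℝ) < b' := by exact_mod_cast (by omega : 0 < b')
  have hη0 : 0 < η := by positivity
  have hlog2 : 0 < Real.log 2 := Real.log_pos (by norm_num)
  have hlog2' : Real.log 2 < 0.6931471808 := Real.log_two_lt_d9
  -- a good index in every window
  have hwin : ∀ i : ℕ, x0 + n0 + b' + 1 ≤ i → ∃ n, i ≤ n ∧ n < i + b' ∧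
      η * 2 ^ n / n ≤ ((B U n).card : ℝ) := by
    intro i hi
    by_contra hcon
    push Not at hcon
    have hi0 : (0 : ℝ) < i := by exact_mod_cast (by omega : 0 < i)
    have h1 := hx0 (2 ^ (i + b')) (by
      have := hlt (i + b')
      omega)
    have h2 := (hn0 (2 ^ i) (by
      have := hlt i
      omega)).2
    have h3 := cnt_sub_le U hU i b'
    have h3' : (cnt U (2 ^ (i + b')) : ℝ) ≤ (Nat.primeCounting (2 ^ i) : ℝ) +
        ∑ n ∈ Ico i (i + b'), ((B U n).card : ℝ) := by exact_mod_cast h3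
    have h4 : ∑ n ∈ Ico i (i + b'), ((B U n).card : ℝ) ≤
        ∑ n ∈ Ico i (i + b'), (2 : ℝ) ^ i / (b' * i) := by
      apply Finset.sum_le_sum
      intro n hn
      rw [Finset.mem_Ico] at hn
      have h5 := (hcon n hn.1 hn.2).le
      refine h5.trans ?_
      have hn0' : (0 : ℝ) < n := by exact_mod_cast (by omega : 0 < n)
      have h6 : (2 : ℝ) ^ n ≤ 2 ^ i * 2 ^ b' := by
        rw [← pow_add]
        exact pow_le_pow_right₀ (by norm_num) (by omega)
      have h7 : (i : ℝ) ≤ n := by exact_mod_cast hn.1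
      rw [hη]
      calc 1 / (2 ^ b' * (b' : ℝ)) * 2 ^ n / n ≤ 1 / (2 ^ b' * (b' : ℝ)) * (2 ^ i * 2 ^ b') / i := by
            gcongr
        _ = _ := by field_simp
    rw [Finset.sum_const, Nat.card_Ico, nsmul_eq_mul, Nat.add_sub_cancel_left] at h4
    have h8 : (b' : ℝ) * ((2 : ℝ) ^ i / (b' * i)) = 2 ^ i / i := by field_simp
    rw [h8] at h4
    push_cast at h1 h2
    rw [Real.log_pow] at h1 h2
    push_cast at h1
    have h9 : (Nat.primeCounting (2 ^ i) : ℝ) ≤ 11 / 10 * 2 ^ i / (i * Real.log 2) := by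
      rw [le_div_iff₀ (by positivity)]
      linarith
    have h10 : 8 * (2 : ℝ) ^ i / (2 * i * Real.log 2) ≤
        δ * 2 ^ (i + b') / ((i + b') * Real.log 2) := by
      have e1 : (8 : ℝ) * 2 ^ i ≤ δ * 2 ^ (i + b') := by
        rw [hb', pow_add, pow_succ]
        have : (0 : ℝ) < 2 ^ i := by positivity
        nlinarith
      have e2 : ((i : ℝ) + b') ≤ 2 * i := by
        have : (b' : ℝ) ≤ i := by exact_mod_cast (by omega : b' ≤ i)
        linarith
      gcongr
    have h11 : (2 : ℝ) ^ i / i < 8 * (2 : ℝ) ^ i / (2 * i * Real.log 2) -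
        11 / 10 * 2 ^ i / (i * Real.log 2) := by
      have e3 : 8 * (2 : ℝ) ^ i / (2 * i * Real.log 2) - 11 / 10 * 2 ^ i / (i * Real.log 2) =
          (29 / 10 * 2 ^ i) / (i * Real.log 2) := by
        field_simp
        ring
      rw [e3, div_lt_div_iff₀ hi0 (by positivity)]
      have : 0 < (2 : ℝ) ^ i * i := by positivity
      nlinarith
    linarith
  choose! w hw1 hw2 hw3 using hwin
  refine ⟨η, hη0, 1 / (2 * b'), by positivity, x0 + n0 + 2 * b' + 1, fun s hs => ?_⟩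
  -- injection
  set m := 2 ^ s / b' with hm
  have hcard : m ≤ (I U η s).card := by
    have h1 : (range m).card ≤ (I U η s).card := by
      apply Finset.card_le_card_of_injOn (fun k => w (2 ^ s + k * b'))
      · intro k hk
        rw [Finset.mem_coe, Finset.mem_range] at hk
        rw [Finset.mem_coe, mem_I]
        have h2 := hlt s
        have h3 := hw1 (2 ^ s + k * b') (by omega)
        have h4 := hw2 (2 ^ s + k * b') (by omega)
        have h5 := hw3 (2 ^ s + k * b') (by omega)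
        have h6 : (k + 1) * b' ≤ m * b' := Nat.mul_le_mul_right _ hk
        have h7 : m * b' ≤ 2 ^ s := Nat.div_mul_le_self _ _
        have h8 : (k + 1) * b' = k * b' + b' := by ring
        have h9 : 2 ^ (s + 1) = 2 ^ s + 2 ^ s := by ring
        simp only
        refine ⟨⟨by omega, by omega⟩, h5⟩
      · intro k hk l hl hkl
        rw [Finset.mem_coe, Finset.mem_range] at hk hl
        simp only at hkl
        have h2 := hlt s
        have h3 := hw1 (2 ^ s + k * b') (by omega)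
        have h4 := hw2 (2 ^ s + k * b') (by omega)
        have h3' := hw1 (2 ^ s + l * b') (by omega)
        have h4' := hw2 (2 ^ s + l * b') (by omega)
        rcases lt_trichotomy k l with h | h | h
        · exfalso
          have h5 : (k + 1) * b' ≤ l * b' := Nat.mul_le_mul_right _ h
          have h6 : (k + 1) * b' = k * b' + b' := by ring
          omega
        · exact h
        · exfalso
          have h5 : (l + 1) * b' ≤ k * b' := Nat.mul_le_mul_right _ h
          have h6 : (l + 1) * b' = l * b' + b' := by ring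
          omega
    rwa [Finset.card_range] at h1
  have h1 : (2 : ℝ) ^ s ≤ (m : ℝ) * b' + b' := by
    have h2 : 2 ^ s < b' * (m + 1) := Nat.lt_mul_div_succ _ (by omega)
    have h3 : ((2 ^ s : ℕ) : ℝ) ≤ ((b' * (m + 1) : ℕ) : ℝ) := by exact_mod_cast h2.le
    push_cast at h3
    linarith
  have h2 : 2 * (b' : ℝ) ≤ 2 ^ s := by
    have h3 := hlt s
    have h4 : 2 * b' ≤ 2 ^ s := by omega
    exact_mod_cast h4
  have h3 : (m : ℝ) ≤ ((I U η s).card : ℝ) := by exact_mod_cast hcard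
  refine le_trans ?_ h3
  rw [div_mul_eq_mul_div, one_mul, div_le_iff₀ (by positivity)]
  nlinarith

/-- the choice inside one scale -/
lemma choice_scale' (U : Set ℕ) (η : ℝ) (hη : 0 < η) : ∃ K : ℝ, 0 < K ∧ ∃ s0 : ℕ, ∀ s ≥ s0,
    ∃ f : ℕ → ℕ, (∀ j ∈ I U η s, f j ∈ B U j) ∧
    ∑ j ∈ I U η s, ∑ i ∈ (I U η s).filter (· < j), F (4 * (f j - f i)) ^ 2 ≤
      K * ((2 : ℝ) ^ s) ^ 2 := by
  obtain ⟨K1, hK1, hE⟩ := pair_energy
  refine ⟨2 * K1 / η ^ 2, by positivity, 48, fun s hs => ?_⟩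
  have hs3 : s ≤ 2 ^ s := (Nat.lt_two_pow_self).le
  set J := I U η s with hJ
  have hcard : ∀ j ∈ J, η * 2 ^ j / j ≤ ((B U j).card : ℝ) := fun j hj => (mem_I.mp hj).2
  have hjJ : ∀ j ∈ J, 2 ^ s ≤ j ∧ j < 2 ^ (s + 1) := fun j hj => (mem_I.mp hj).1
  have hjpos : ∀ j ∈ J, (0 : ℝ) < j := by
    intro j hj
    have := hjJ j hj
    exact_mod_cast (by omega : 0 < j)
  have hcpos : ∀ j ∈ J, (0 : ℝ) < (B U j).card := by
    intro j hj
    have := hjpos j hj
    exact lt_of_lt_of_le (by positivity) (hcard j hj)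
  obtain ⟨f, hf, hf1⟩ := exists_choice (B U) (fun _ _ a b => F (4 * (b - a)) ^ 2) J (by
    intro j hj
    rw [← Finset.card_pos]
    exact_mod_cast hcpos j hj) (fun _ _ => 0)
  refine ⟨f, hf, ?_⟩
  have h0 : ∑ i ∈ J, av (B U i) (fun _ => 0) = 0 := by
    apply Finset.sum_eq_zero
    intro i _
    simp [av]
  simp only [Finset.sum_const_zero, zero_add] at hf1
  rw [h0, zero_add] at hf1
  refine hf1.trans ?_
  have h1 : ∀ j ∈ J, ∀ i ∈ J.filter (· < j),
      av (B U j) (fun b => av (B U i) (fun a => F (4 * (b - a)) ^ 2)) ≤ 2 * K1 / η ^ 2 := by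
    intro j hj i hi
    rw [Finset.mem_filter] at hi
    have hi' := hjJ i hi.1
    have hij := hi.2
    have hJj := hjJ j hj
    have h2 := hE i j (by omega) hij
    have hci := hcard i hi.1
    have hcj := hcard j hj
    have hi0 := hjpos i hi.1
    have hj0' := hjpos j hj
    have hci0 := hcpos i hi.1
    have hcj0 := hcpos j hj
    have h2' : ∑ a ∈ B U i, ∑ b ∈ B U j, F (4 * (b - a)) ^ 2 ≤ K1 * (2 ^ i * 2 ^ j) / (i : ℝ) ^ 2 := by
      refine le_trans ?_ h2
      refine le_trans ?_ (Finset.sum_le_sum_of_subset_of_nonneg (B_subset U i)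
        (fun a _ _ => Finset.sum_nonneg fun b _ => by positivity))
      exact Finset.sum_le_sum fun a _ => Finset.sum_le_sum_of_subset_of_nonneg (B_subset U j)
        (fun b _ _ => by positivity)
    unfold av
    rw [← Finset.sum_div, div_div, Finset.sum_comm, div_le_iff₀ (by positivity)]
    refine h2'.trans ?_
    have h3 : η * (2 : ℝ) ^ i / i * (η * 2 ^ j / j) ≤ (B U i).card * (B U j).card := by
      gcongr
    have h4 : (j : ℝ) ≤ 2 * i := by
      have : j ≤ 2 * i := by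
        have : 2 ^ (s + 1) = 2 * 2 ^ s := by ring
        omega
      exact_mod_cast this
    have h5 : K1 * (2 ^ i * 2 ^ j) / (i : ℝ) ^ 2 ≤
        2 * K1 / η ^ 2 * (η * (2 : ℝ) ^ i / i * (η * 2 ^ j / j)) := by
      have e1 : 2 * K1 / η ^ 2 * (η * (2 : ℝ) ^ i / i * (η * 2 ^ j / j)) =
          K1 * (2 ^ i * 2 ^ j) * (2 * i) / (i ^ 2 * j) := by
        field_simp
      rw [e1, div_le_div_iff₀ (by positivity) (by positivity)]
      have : 0 ≤ K1 * ((2 : ℝ) ^ i * 2 ^ j) * (i : ℝ) ^ 2 * (2 * i - j) := by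
        apply mul_nonneg (by positivity)
        linarith
      nlinarith
    calc _ ≤ _ := h5
      _ ≤ 2 * K1 / η ^ 2 * ((B U i).card * (B U j).card) := by gcongr
  have h2 : ∑ j ∈ J, ∑ i ∈ J.filter (· < j),
      av (B U j) (fun b => av (B U i) (fun a => F (4 * (b - a)) ^ 2)) ≤
      ∑ j ∈ J, ∑ i ∈ J, 2 * K1 / η ^ 2 := by
    apply Finset.sum_le_sum
    intro j hj
    refine (Finset.sum_le_sum (h1 j hj)).trans ?_
    exact Finset.sum_le_sum_of_subset_of_nonneg (Finset.filter_subset _ _)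
      (fun _ _ _ => by positivity)
  refine h2.trans ?_
  have hJc : (J.card : ℝ) ≤ 2 ^ s := by
    have h3 : J.card ≤ (Ico (2 ^ s) (2 ^ (s + 1))).card := by
      apply Finset.card_le_card
      intro j hj
      rw [Finset.mem_Ico]
      exact hjJ j hj
    rw [Nat.card_Ico, pow_succ] at h3
    have h4 : J.card ≤ 2 ^ s := by omega
    exact_mod_cast h4
  simp only [Finset.sum_const, nsmul_eq_mul]
  have h5 : (J.card : ℝ) * (J.card * (2 * K1 / η ^ 2)) = 2 * K1 / η ^ 2 * (J.card : ℝ) ^ 2 := by ring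
  rw [h5]
  gcongr

/-- the global choice -/
lemma global_choice' (U : Set ℕ) (hU : ∀ p ∈ U, p.Prime)
    (hd : ∃ δ : ℝ, 0 < δ ∧ ∃ x0 : ℕ, ∀ x ≥ x0, δ * x / Real.log x ≤ (cnt U x : ℝ)) :
    ∃ g : ℕ → ℕ, ∃ η : ℝ, 0 < η ∧ ∃ γ : ℝ, 0 < γ ∧ ∃ K : ℝ, 0 < K ∧ ∃ s0 : ℕ, 1 ≤ s0 ∧
    ∀ s ≥ s0, (∀ j ∈ I U η s, g j ∈ B U j) ∧ γ * 2 ^ s ≤ ((I U η s).card : ℝ) ∧
      ∑ j ∈ I U η s, ∑ i ∈ (I U η s).filter (· < j), F (4 * (g j - g i)) ^ 2 ≤
        K * ((2 : ℝ) ^ s) ^ 2 := by
  obtain ⟨η, hη, γ, hγ, s1, h1⟩ := many_good U hU hd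
  obtain ⟨K, hK, s2, h2⟩ := choice_scale' U η hη
  choose! f hf hf1 using h2
  refine ⟨fun j => f (Nat.log 2 j) j, η, hη, γ, hγ, K, hK, s1 + s2 + 1, by omega, fun s hs => ?_⟩
  have hlog : ∀ j ∈ I U η s, Nat.log 2 j = s := by
    intro j hj
    have := (mem_I.mp hj).1
    exact Nat.log_eq_of_pow_le_of_lt_pow this.1 this.2
  refine ⟨?_, h1 s (by omega), ?_⟩
  · intro j hj
    simp only
    rw [hlog j hj]
    exact hf s (by omega) j hj
  · refine le_trans (le_of_eq ?_) (hf1 s (by omega))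
    apply Finset.sum_congr rfl
    intro j hj
    apply Finset.sum_congr rfl
    intro i hi
    simp only
    rw [hlog j hj, hlog i (Finset.mem_filter.mp hi).1]

end Pool.Agent.LevyThin
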