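import Mathlib
import Pool.Agent.LevyThin.Dense

/-!
# The final count
-/

namespace Pool.Agent.LevyThin

open Finset
open Pool.Agent.Lib.PrimePairs
open scoped Pointwise

/-- sizes for large `X` -/
lemma sizes (δ : ℝ) (hδ : 0 < δ) : ∃ X1 : ℕ, 2 ^ 48 ≤ X1 ∧ ∀ X ≥ X1, Nat.sqrt X + 1 ≤ X ∧
    ((Nat.sqrt X + 1 : ℕ) : ℝ) ≤ δ * X / (2 * Real.log X) ∧
    (Nat.primeCounting X : ℝ) ≤ 2 * X / Real.log X := by
  obtain ⟨n0, hn0⟩ := pi_bounds
  set D : ℝ := 2 ^ 20 / δ ^ 4 with hD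
  have hD0 : 0 < D := by positivity
  refine ⟨max n0 (2 ^ 48) + (⌈D⌉₊) ^ 2, ?_, fun X hX => ?_⟩
  · have := le_max_right n0 (2 ^ 48)
    omega
  have hX1 : n0 ≤ X := by
    have := le_max_left n0 (2 ^ 48)
    omega
  have hX2 : 2 ^ 48 ≤ X := by
    have := le_max_right n0 (2 ^ 48)
    omega
  have hX3 : (⌈D⌉₊) ^ 2 ≤ X := by omega
  have hXr : (2 : ℝ) ^ 48 ≤ X := by exact_mod_cast hX2
  have hXpos : (0 : ℝ) < X := lt_of_lt_of_le (by positivity) hXr
  set L := Real.log X with hL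
  set S := Real.sqrt X with hS
  have hS0 : 0 ≤ S := Real.sqrt_nonneg _
  have hSS : S * S = X := Real.mul_self_sqrt hXpos.le
  have hSD : D ≤ S := by
    apply Real.le_sqrt_of_sq_le
    have h1 : D ≤ ⌈D⌉₊ := Nat.le_ceil D
    have h2 : ((⌈D⌉₊ : ℕ) : ℝ) ^ 2 ≤ X := by exact_mod_cast hX3
    have h3 : D ^ 2 ≤ ((⌈D⌉₊ : ℕ) : ℝ) ^ 2 := pow_le_pow_left₀ hD0.le h1 2
    exact h3.trans h2
  have hS24 : (2 : ℝ) ^ 24 ≤ S := by
    rw [hS]
    apply Real.le_sqrt_of_sq_le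
    have h24 : ((2 : ℝ) ^ 24) ^ 2 = (2 : ℝ) ^ 48 := by rw [← pow_mul]
    rw [h24]
    exact hXr
  have hS1 : 1 ≤ S := le_trans (by norm_num) hS24
  have hL0 : 0 < L := Real.log_pos (by linarith [show (1 : ℝ) < 2 ^ 48 by norm_num])
  have hL4 : L ^ 4 ≤ 8 ^ 4 * S := log_le_eight_root (P := X) (by omega)
  have h10 : 4 * L ≤ δ * S := by
    rw [← pow_le_pow_iff_left₀ (by positivity) (by positivity) (show (4 : ℕ) ≠ 0 by norm_num)]
    have h1 : D ≤ S ^ 3 := by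
      calc D ≤ S := hSD
        _ = S ^ 1 := by ring
        _ ≤ S ^ 3 := pow_le_pow_right₀ hS1 (by norm_num)
    have h2 : (2 : ℝ) ^ 20 ≤ δ ^ 4 * S ^ 3 := by
      rw [hD, div_le_iff₀ (by positivity)] at h1
      linarith
    calc (4 * L) ^ 4 = 4 ^ 4 * L ^ 4 := by ring
      _ ≤ 4 ^ 4 * (8 ^ 4 * S) := by gcongr
      _ = 2 ^ 20 * S := by ring
      _ ≤ (δ ^ 4 * S ^ 3) * S := by gcongr
      _ = (δ * S) ^ 4 := by ring
  have hM : ((Nat.sqrt X + 1 : ℕ) : ℝ) ≤ 2 * S := by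
    push_cast
    have := Real.nat_sqrt_le_real_sqrt (a := X)
    rw [← hS] at this
    linarith
  refine ⟨?_, ?_, ?_⟩
  · have h1 : ((Nat.sqrt X + 1 : ℕ) : ℝ) ≤ (X : ℝ) := by
      refine hM.trans ?_
      have h10' : (2 : ℝ) ≤ S := le_trans (by norm_num) hS24
      have h11 : 2 * S ≤ S * S := mul_le_mul_of_nonneg_right h10' hS0
      linarith
    exact Nat.cast_le.mp h1
  · refine hM.trans ?_
    rw [le_div_iff₀ (by positivity)]
    have h2 : S * (4 * L) ≤ S * (δ * S) := mul_le_mul_of_nonneg_left h10 hS0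
    have h3 : S * (δ * S) = δ * X := by
      have : S * (δ * S) = δ * (S * S) := by ring
      rw [this, hSS]
    linarith
  · rw [le_div_iff₀ hL0]
    have h1 := (hn0 X hX1).2
    linarith

/-- the numbers `m ≤ 2X` of the form `2p + q` with `p ∈ P`, `p ≤ m ^ θ`, `q ∈ Q` -/
def rep (P : Set ℕ) (Q : Finset ℕ) (θ : ℝ) (X : ℕ) : Set ℕ :=
  {m | m ≤ 2 * X ∧ ∃ p ∈ P, ∃ q ∈ Q, q ≠ 2 ∧ m = 2 * p + q ∧ (p : ℝ) ≤ (m : ℝ) ^ θ}

lemma rep_finite (P : Set ℕ) (Q : Finset ℕ) (θ : ℝ) (X : ℕ) : (rep P Q θ X).Finite :=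
  (Set.finite_Iic (2 * X)).subset fun _ hm => hm.1

/-- **the lower bound** -/
theorem lower (U : Set ℕ) (g : ℕ → ℕ) (η γ K : ℝ) (hγ : 0 < γ) (hK : 0 < K)
    (s0 : ℕ) (hs0 : 1 ≤ s0)
    (hG : ∀ s ≥ s0, (∀ j ∈ I U η s, g j ∈ B U j) ∧ γ * 2 ^ s ≤ ((I U η s).card : ℝ) ∧
      ∑ j ∈ I U η s, ∑ i ∈ (I U η s).filter (· < j), F (4 * (g j - g i)) ^ 2 ≤
        K * ((2 : ℝ) ^ s) ^ 2) (δ θ : ℝ) (hδ : 0 < δ) (hθ : 0 < θ) :
    ∃ c : ℝ, 0 < c ∧ ∃ X0 : ℕ, ∀ X ≥ X0, ∀ Qs : Finset ℕ, (∀ q ∈ Qs, q.Prime ∧ q ≤ X) →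
      δ * X / Real.log X ≤ (Qs.card : ℝ) →
      c * X ≤ ((rep {p | ∃ s ≥ s0, ∃ j ∈ I U η s, p = g j} Qs θ X).ncard : ℝ) := by
  -- the exponent `a`
  obtain ⟨a, ha⟩ : ∃ a : ℕ, 4 / θ + 4 ≤ (2 : ℝ) ^ a := by
    obtain ⟨a, ha⟩ := pow_unbounded_of_one_lt (4 / θ + 4) (show (1 : ℝ) < 2 by norm_num)
    exact ⟨a, ha.le⟩
  have ha2 : 2 ≤ a := by
    by_contra hcon
    have h1 : a ≤ 1 := by omega
    have h2 : (2 : ℝ) ^ a ≤ 2 ^ 1 := pow_le_pow_right₀ (by norm_num) h1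
    have h3 : 0 < 4 / θ := by positivity
    linarith
  have haθ : 4 ≤ θ * 2 ^ a := by
    have h1 : 4 / θ ≤ 2 ^ a := by linarith
    rw [div_le_iff₀ hθ] at h1
    linarith
  obtain ⟨X1, hX1, hQ⟩ := sizes δ hδ
  have hK0 := K0_pos
  set D : ℝ := 2 * 2 ^ (a + 1) + 2 * K0 * K with hD
  have hD0 : 0 < D := by positivity
  refine ⟨γ ^ 2 * δ ^ 2 / (4 * D), by positivity, max X1 (2 ^ (2 ^ (a + s0 + 2))), ?_⟩
  intro X hX Qs hQs hQsc
  have hXX1 : X1 ≤ X := (le_max_left _ _).trans hX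
  have hXX2 : 2 ^ (2 ^ (a + s0 + 2)) ≤ X := (le_max_right _ _).trans hX
  have hX48 : 2 ^ 48 ≤ X := hX1.trans hXX1
  have hXne : X ≠ 0 := by
    have : 0 < 2 ^ 48 := by norm_num
    omega
  obtain ⟨hMX, hQ1, hQ2⟩ := hQ X hXX1
  -- scales
  set k := Nat.log 2 X with hk
  have hk1 : 2 ^ k ≤ X := Nat.pow_log_le_self 2 hXne
  have hk2 : X < 2 ^ (k + 1) := Nat.lt_pow_succ_log_self (by norm_num) X
  have hk3 : 2 ^ (a + s0 + 2) ≤ k := (Nat.le_log_iff_pow_le (by norm_num) hXne).mpr hXX2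
  have hkne : k ≠ 0 := by
    have : 0 < 2 ^ (a + s0 + 2) := by positivity
    omega
  set t := Nat.log 2 k with ht
  have ht1 : 2 ^ t ≤ k := Nat.pow_log_le_self 2 hkne
  have ht2 : k < 2 ^ (t + 1) := Nat.lt_pow_succ_log_self (by norm_num) k
  have ht3 : a + s0 + 2 ≤ t := (Nat.le_log_iff_pow_le (by norm_num) hkne).mpr hk3
  obtain ⟨s, hs⟩ : ∃ s, t = s + a := ⟨t - a, by omega⟩
  have hss0 : s0 ≤ s := by omega
  obtain ⟨hgB, hJlow, hE⟩ := hG s hss0
  set J := I U η s with hJ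
  have hjJ : ∀ j ∈ J, 2 ^ s ≤ j ∧ j < 2 ^ (s + 1) := fun j hj => (mem_I.mp hj).1
  have hgJ : ∀ j ∈ J, g j ∈ A j := fun j hj => (mem_B.mp (hgB j hj)).1
  have hJc : (J.card : ℝ) ≤ 2 ^ s := by
    have h3 : J.card ≤ (Ico (2 ^ s) (2 ^ (s + 1))).card := by
      apply Finset.card_le_card
      intro j hj
      rw [Finset.mem_Ico]
      exact hjJ j hj
    rw [Nat.card_Ico, pow_succ] at h3
    have h4 : J.card ≤ 2 ^ s := by omega
    exact_mod_cast h4
  -- sizes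
  have hXr : (2 : ℝ) ^ 48 ≤ X := by exact_mod_cast hX48
  have hXpos : (0 : ℝ) < X := lt_of_lt_of_le (by positivity) hXr
  set L := Real.log X with hL
  have hL0 : 0 < L := Real.log_pos (by linarith [show (1 : ℝ) < 2 ^ 48 by norm_num])
  have hLR : L ≤ 2 ^ (a + 1) * 2 ^ s := by
    have h1 : L ≤ Real.log ((2 : ℝ) ^ (k + 1)) := by
      apply Real.log_le_log hXpos
      exact_mod_cast hk2.le
    rw [Real.log_pow] at h1
    have hlog2 : Real.log 2 < 0.6931471808 := Real.log_two_lt_d9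
    have h2 : ((k + 1 : ℕ) : ℝ) ≤ 2 ^ (a + 1) * 2 ^ s := by
      have h3 : k + 1 ≤ 2 ^ (t + 1) := ht2
      have h4 : (2 : ℕ) ^ (t + 1) = 2 ^ (a + 1) * 2 ^ s := by
        rw [hs, ← pow_add]
        congr 1
        ring
      rw [h4] at h3
      exact_mod_cast h3
    have h5 : (0 : ℝ) ≤ ((k + 1 : ℕ) : ℝ) := Nat.cast_nonneg _
    nlinarith
  -- the chosen primes are small
  have hgle : ∀ j ∈ J, g j ≤ 2 ^ (2 ^ (s + 1)) := by
    intro j hj
    have h1 := (mem_A.mp (hgJ j hj)).1.2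
    have h2 := hjJ j hj
    exact h1.trans (Nat.pow_le_pow_right (by norm_num) h2.2)
  have hst : 2 ^ (s + 1) + 2 ≤ k := by
    have h1 : 2 ^ (s + 2) ≤ 2 ^ t := Nat.pow_le_pow_right (by norm_num) (by omega)
    have h2 : 2 ^ (s + 2) = 2 ^ (s + 1) + 2 ^ (s + 1) := by ring
    have h3 : 2 ^ 1 ≤ 2 ^ (s + 1) := Nat.pow_le_pow_right (by norm_num) (by omega)
    omega
  have h2g : ∀ j ∈ J, 2 * g j ≤ X / 2 := by
    intro j hj
    have h1 := hgle j hj
    have h2 : 2 ^ (2 ^ (s + 1) + 2) ≤ 2 ^ k := Nat.pow_le_pow_right (by norm_num) hst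
    have h3 : 2 ^ (2 ^ (s + 1) + 2) = 4 * 2 ^ (2 ^ (s + 1)) := by rw [pow_add]; ring
    omega
  -- the sumset
  set Q := Qs.filter (fun q => Nat.sqrt X + 1 < q) with hQdef
  have hQprime : ∀ q ∈ Q, q.Prime := fun q hq => (hQs q (Finset.mem_filter.mp hq).1).1
  have hQlow : δ * X / (2 * L) ≤ (Q.card : ℝ) := by
    have h1 : Qs.card ≤ Q.card + (Icc 1 (Nat.sqrt X + 1)).card := by
      rw [← Finset.card_filter_add_card_filter_not (s := Qs) (fun q => Nat.sqrt X + 1 < q)]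
      apply Nat.add_le_add_left
      apply Finset.card_le_card
      intro q hq
      rw [Finset.mem_filter] at hq
      rw [Finset.mem_Icc]
      exact ⟨(hQs q hq.1).1.pos, by omega⟩
    rw [Nat.card_Icc, Nat.add_sub_cancel] at h1
    have h2 : (Qs.card : ℝ) ≤ Q.card + ((Nat.sqrt X + 1 : ℕ) : ℝ) := by exact_mod_cast h1
    have h3 : δ * X / L = δ * X / (2 * L) + δ * X / (2 * L) := by
      field_simp
      ring
    linarith
  have hQup : (Q.card : ℝ) ≤ 2 * X / L := by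
    refine le_trans ?_ hQ2
    have h1 : Q.card ≤ Nat.primeCounting X := by
      rw [Nat.primeCounting, Nat.primeCounting', Nat.count_eq_card_filter_range]
      apply Finset.card_le_card
      intro q hq
      rw [Finset.mem_filter] at hq
      rw [Finset.mem_filter, Finset.mem_range]
      exact ⟨by have := (hQs q hq.1).2; omega, (hQs q hq.1).1⟩
    exact_mod_cast h1
  set h : ℕ → ℕ := fun j => 2 * g j with hh
  have hmono : ∀ i ∈ J, ∀ j ∈ J, i < j → h i < h j := by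
    intro i hi j hj hij
    have h1 := (mem_A.mp (hgJ i hi)).1.2
    have h2 := (mem_A.mp (hgJ j hj)).1.1
    have h3 : 2 ^ (i + 1) ≤ 2 ^ j := Nat.pow_le_pow_right (by norm_num) hij
    simp only [hh]
    omega
  have hinj : Set.InjOn h J := by
    intro i hi j hj hij
    rcases lt_trichotomy i j with hlt | heq | hgt
    · exact absurd hij (hmono i hi j hj hlt).ne
    · exact heq
    · exact absurd hij.symm (hmono j hj i hi hgt).ne
  have hSc : (J.image h).card = J.card := Finset.card_image_of_injOn hinj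
  have hsub : ((J.image h + Q : Finset ℕ) : Set ℕ) ⊆
      rep {p | ∃ s ≥ s0, ∃ j ∈ I U η s, p = g j} Qs θ X := by
    intro m hm
    rw [Finset.mem_coe, Finset.mem_add] at hm
    obtain ⟨x, hx, q, hq, rfl⟩ := hm
    rw [Finset.mem_image] at hx
    obtain ⟨j, hj, rfl⟩ := hx
    rw [hQdef, Finset.mem_filter] at hq
    have h1 := h2g j hj
    have hqX := (hQs q hq.1).2
    refine ⟨?_, g j, ⟨s, hss0, j, hj, rfl⟩, q, hq.1, ?_, rfl, ?_⟩
    · simp only [hh]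
      omega
    · have h3 : 2 ≤ Nat.sqrt X := by
        rw [Nat.le_sqrt]
        omega
      omega
    · -- size
      have hq1 : Real.sqrt X ≤ q := by
        have h4 : Real.sqrt X ≤ (Nat.sqrt X : ℝ) + 1 := Real.real_sqrt_le_nat_sqrt_succ
        have h5 : ((Nat.sqrt X + 1 : ℕ) : ℝ) ≤ q := by exact_mod_cast hq.2.le
        push_cast at h5
        linarith
      have hm1 : Real.sqrt X ≤ ((h j + q : ℕ) : ℝ) := by
        push_cast
        have : (0 : ℝ) ≤ (h j : ℝ) := Nat.cast_nonneg _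
        linarith
      have ht' : 2 ^ (t - 1) + 2 ^ (t - 1) = 2 ^ t := by
        have : t = (t - 1) + 1 := by omega
        conv_rhs => rw [this, pow_succ]
        ring
      have hsq : (2 : ℝ) ^ (2 ^ (t - 1)) ≤ Real.sqrt X := by
        apply Real.le_sqrt_of_sq_le
        have h6 : (2 : ℕ) ^ (2 ^ t) ≤ X := (Nat.pow_le_pow_right (by norm_num) ht1).trans hk1
        calc ((2 : ℝ) ^ (2 ^ (t - 1))) ^ 2 = 2 ^ (2 ^ (t - 1) + 2 ^ (t - 1)) := by
              rw [pow_add]; ring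
          _ = 2 ^ (2 ^ t) := by rw [ht']
          _ ≤ X := by exact_mod_cast h6
      have hbase : (2 : ℝ) ^ (2 ^ (t - 1)) ≤ ((h j + q : ℕ) : ℝ) := hsq.trans hm1
      have h7 : ((2 : ℝ) ^ (2 ^ (t - 1))) ^ θ ≤ (((h j + q : ℕ) : ℝ)) ^ θ :=
        Real.rpow_le_rpow (by positivity) hbase hθ.le
      refine le_trans ?_ h7
      have h8 : (g j : ℝ) ≤ (2 : ℝ) ^ (2 ^ (s + 1)) := by exact_mod_cast hgle j hj
      refine h8.trans ?_
      have h9 : ((2 : ℝ) ^ (2 ^ (t - 1))) ^ θ = (2 : ℝ) ^ (((2 ^ (t - 1) : ℕ) : ℝ) * θ) := by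
        rw [← Real.rpow_natCast, ← Real.rpow_mul (by norm_num)]
      rw [h9, ← Real.rpow_natCast]
      apply Real.rpow_le_rpow_of_exponent_le (by norm_num)
      push_cast
      have h10 : (2 : ℝ) ^ (s + 1) * 2 ^ a = 2 ^ (t - 1) * 4 := by
        rw [← pow_add, show (4 : ℝ) = 2 ^ 2 by norm_num, ← pow_add]
        congr 1
        omega
      have h11 : (2 : ℝ) ^ (s + 1) * 4 ≤ (2 : ℝ) ^ (s + 1) * (θ * 2 ^ a) := by gcongr
      have h12 : (2 : ℝ) ^ (s + 1) * (θ * 2 ^ a) = θ * (2 ^ (t - 1) * 4) := by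
        rw [← h10]; ring
      linarith
  have hT : ((J.image h + Q).card : ℝ) ≤
      ((rep {p | ∃ s ≥ s0, ∃ j ∈ I U η s, p = g j} Qs θ X).ncard : ℝ) := by
    rw [← Set.ncard_coe_finset]
    exact_mod_cast Set.ncard_le_ncard hsub (rep_finite _ _ _ _)
  refine le_trans ?_ hT
  -- the energy
  have hen := energy_le J Q h hmono hQprime
  have hcs := Finset.le_card_add_mul_addEnergy (J.image h) Q
  rw [hSc] at hcs
  have hcs' : (J.card : ℝ) ^ 2 * (Q.card : ℝ) ^ 2 ≤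
      ((J.image h + Q).card : ℝ) * (Finset.addEnergy (J.image h) Q : ℝ) := by
    exact_mod_cast hcs
  have hpair : ∀ j ∈ J, ∀ i ∈ J.filter (· < j),
      ((Q.filter (fun q => (q + (h j - h i)).Prime)).card : ℝ) ≤
        K0 * X / L ^ 2 * F (4 * (g j - g i)) ^ 2 := by
    intro j hj i hi
    rw [Finset.mem_filter] at hi
    have hlt := hmono i hi.1 j hj hi.2
    have h1 := pairs_le (X := X) (d := h j - h i) (M := Nat.sqrt X + 1)
      (N := X - (Nat.sqrt X + 1)) hX48 (by omega) (by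
        push_cast
        exact Real.real_sqrt_le_nat_sqrt_succ) (by omega)
    rw [Nat.add_sub_cancel' hMX] at h1
    have h2 : Q.filter (fun q => (q + (h j - h i)).Prime) ⊆
        (Ioc (Nat.sqrt X + 1) X).filter (fun n => n.Prime ∧ (n + (h j - h i)).Prime) := by
      intro q hq
      rw [Finset.mem_filter, hQdef, Finset.mem_filter] at hq
      rw [Finset.mem_filter, Finset.mem_Ioc]
      have hqX := hQs q hq.1.1
      exact ⟨⟨hq.1.2, hqX.2⟩, hqX.1, hq.2⟩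
    have h2' : ((Q.filter (fun q => (q + (h j - h i)).Prime)).card : ℝ) ≤
        (((Ioc (Nat.sqrt X + 1) X).filter
          (fun n => n.Prime ∧ (n + (h j - h i)).Prime)).card : ℝ) := by
      exact_mod_cast Finset.card_le_card h2
    refine h2'.trans (h1.trans (le_of_eq ?_))
    have h3 : 2 * (h j - h i) = 4 * (g j - g i) := by
      simp only [hh]
      omega
    rw [h3]
    ring
  have hsum : ∑ j ∈ J, ∑ i ∈ J.filter (· < j),
      ((Q.filter (fun q => (q + (h j - h i)).Prime)).card : ℝ) ≤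
      K0 * X / L ^ 2 * (K * ((2 : ℝ) ^ s) ^ 2) := by
    refine (Finset.sum_le_sum fun j hj => Finset.sum_le_sum (hpair j hj)).trans ?_
    simp_rw [← Finset.mul_sum]
    gcongr
  set T : ℝ := ((J.image h + Q).card : ℝ) with hTdef
  set R : ℝ := (2 : ℝ) ^ s with hR
  have hR0 : 0 < R := by positivity
  set q0 : ℝ := (Q.card : ℝ) with hq0
  have hT0 : 0 ≤ T := Nat.cast_nonneg _
  have hE1 : (Finset.addEnergy (J.image h) Q : ℝ) ≤ D * R ^ 2 * X / L ^ 2 := by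
    refine hen.trans ?_
    have h1 : (J.card : ℝ) * q0 ≤ 2 * 2 ^ (a + 1) * R ^ 2 * X / L ^ 2 := by
      have h2 : (J.card : ℝ) * q0 ≤ R * (2 * X / L) := by gcongr
      refine h2.trans ?_
      have h3 : R * (2 * X / L) = 2 * R * X * L / L ^ 2 := by
        field_simp
      rw [h3]
      have h5 : 2 * R * X * L ≤ 2 * 2 ^ (a + 1) * R ^ 2 * X := by
        calc 2 * R * X * L ≤ 2 * R * X * (2 ^ (a + 1) * R) := by gcongr
          _ = 2 * 2 ^ (a + 1) * R ^ 2 * X := by ring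
      exact div_le_div_of_nonneg_right h5 (by positivity)
    have h4 : D * R ^ 2 * X / L ^ 2 = 2 * 2 ^ (a + 1) * R ^ 2 * X / L ^ 2 +
        2 * (K0 * X / L ^ 2 * (K * R ^ 2)) := by
      rw [hD]
      ring
    rw [h4]
    linarith
  have h1 : (γ * R) ^ 2 * (δ * X / (2 * L)) ^ 2 ≤ T * (D * R ^ 2 * X / L ^ 2) := by
    calc (γ * R) ^ 2 * (δ * X / (2 * L)) ^ 2 ≤ (J.card : ℝ) ^ 2 * q0 ^ 2 := by gcongr
      _ ≤ T * (Finset.addEnergy (J.image h) Q : ℝ) := hcs'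
      _ ≤ _ := by gcongr
  have h2 : (γ * R) ^ 2 * (δ * X / (2 * L)) ^ 2 =
      (R ^ 2 * X / L ^ 2) * (γ ^ 2 * δ ^ 2 * X / 4) := by
    field_simp
    norm_num
  have h3 : T * (D * R ^ 2 * X / L ^ 2) = (R ^ 2 * X / L ^ 2) * (T * D) := by ring
  rw [h2, h3] at h1
  have h4 := le_of_mul_le_mul_left h1 (by positivity)
  rw [div_mul_eq_mul_div, div_le_iff₀ (by positivity)]
  linarith

end Pool.Agent.LevyThin
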