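import Mathlib
import Pool.Agent.LevyThin.Final

/-!
# The size of the smaller summand
-/

namespace Pool.Agent.LevyThin

open Finset Filter
open Pool.Agent.Lib.PrimePairs
open scoped Pointwise

/-- the energy inequality for a sequence `h` and a set `Q` of primes -/
lemma core {X : ℕ} (hX48 : 2 ^ 48 ≤ X) (hMX : Nat.sqrt X + 1 ≤ X) (J Q : Finset ℕ) (h : ℕ → ℕ)
    (hmono : ∀ i ∈ J, ∀ j ∈ J, i < j → h i < h j)
    (hQ : ∀ q ∈ Q, q.Prime ∧ Nat.sqrt X + 1 < q ∧ q ≤ X) (G : ℝ)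
    (hG : ∑ j ∈ J, ∑ i ∈ J.filter (· < j), F (2 * (h j - h i)) ^ 2 ≤ G) :
    (J.card : ℝ) ^ 2 * (Q.card : ℝ) ^ 2 ≤ ((J.image h + Q).card : ℝ) *
      (J.card * Q.card + 2 * (K0 * X / Real.log X ^ 2 * G)) := by
  have hK0 := K0_pos
  have hXr : (2 : ℝ) ^ 48 ≤ X := by exact_mod_cast hX48
  have hXpos : (0 : ℝ) < X := lt_of_lt_of_le (by positivity) hXr
  set L := Real.log X with hL
  have hinj : Set.InjOn h J := by
    intro i hi j hj hij
    rcases lt_trichotomy i j with hlt | heq | hgt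
    · exact absurd hij (hmono i hi j hj hlt).ne
    · exact heq
    · exact absurd hij.symm (hmono j hj i hi hgt).ne
  have hSc : (J.image h).card = J.card := Finset.card_image_of_injOn hinj
  have hen := energy_le J Q h hmono (fun q hq => (hQ q hq).1)
  have hcs := Finset.le_card_add_mul_addEnergy (J.image h) Q
  rw [hSc] at hcs
  have hcs' : (J.card : ℝ) ^ 2 * (Q.card : ℝ) ^ 2 ≤
      ((J.image h + Q).card : ℝ) * (Finset.addEnergy (J.image h) Q : ℝ) := by
    exact_mod_cast hcs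
  have hpair : ∀ j ∈ J, ∀ i ∈ J.filter (· < j),
      ((Q.filter (fun q => (q + (h j - h i)).Prime)).card : ℝ) ≤
        K0 * X / L ^ 2 * F (2 * (h j - h i)) ^ 2 := by
    intro j hj i hi
    rw [Finset.mem_filter] at hi
    have hlt := hmono i hi.1 j hj hi.2
    have h1 := pairs_le (X := X) (d := h j - h i) (M := Nat.sqrt X + 1)
      (N := X - (Nat.sqrt X + 1)) hX48 (by omega) (by
        push_cast
        exact Real.real_sqrt_le_nat_sqrt_succ) (by omega)
    rw [Nat.add_sub_cancel' hMX] at h1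
    have h2 : Q.filter (fun q => (q + (h j - h i)).Prime) ⊆
        (Ioc (Nat.sqrt X + 1) X).filter (fun n => n.Prime ∧ (n + (h j - h i)).Prime) := by
      intro q hq
      rw [Finset.mem_filter] at hq
      rw [Finset.mem_filter, Finset.mem_Ioc]
      have hqX := hQ q hq.1
      exact ⟨⟨hqX.2.1, hqX.2.2⟩, hqX.1, hq.2⟩
    have h2' : ((Q.filter (fun q => (q + (h j - h i)).Prime)).card : ℝ) ≤
        (((Ioc (Nat.sqrt X + 1) X).filter
          (fun n => n.Prime ∧ (n + (h j - h i)).Prime)).card : ℝ) := by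
      exact_mod_cast Finset.card_le_card h2
    refine h2'.trans (h1.trans (le_of_eq ?_))
    ring
  have hsum : ∑ j ∈ J, ∑ i ∈ J.filter (· < j),
      ((Q.filter (fun q => (q + (h j - h i)).Prime)).card : ℝ) ≤ K0 * X / L ^ 2 * G := by
    refine (Finset.sum_le_sum fun j hj => Finset.sum_le_sum (hpair j hj)).trans ?_
    simp_rw [← Finset.mul_sum]
    gcongr
  refine hcs'.trans ?_
  gcongr
  linarith

/-- the primes in `(N, 2N]` -/
def Bl (N : ℕ) : Finset ℕ := (Ioc N (2 * N)).filter Nat.Prime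

lemma mem_Bl {N p : ℕ} : p ∈ Bl N ↔ (N < p ∧ p ≤ 2 * N) ∧ p.Prime := by
  simp [Bl]

/-- two-sided bounds for the number of primes in `(N, 2N]` -/
lemma card_Bl : ∃ n1 : ℕ, 2 ^ 48 ≤ n1 ∧ ∀ N ≥ n1, (N : ℝ) / (2 * Real.log N) ≤ (Bl N).card ∧
    ((Bl N).card : ℝ) ≤ 3 * N / Real.log N := by
  obtain ⟨n0, hn0⟩ := pi_bounds
  refine ⟨max n0 (2 ^ 48), le_max_right _ _, fun N hN => ?_⟩
  have hN0 : n0 ≤ N := (le_max_left _ _).trans hN
  have hN48 : 2 ^ 48 ≤ N := (le_max_right _ _).trans hN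
  have hNr : (2 : ℝ) ^ 48 ≤ N := by exact_mod_cast hN48
  have hNpos : (0 : ℝ) < N := lt_of_lt_of_le (by positivity) hNr
  set L := Real.log N with hL
  have hlog2 : 0 < Real.log 2 := Real.log_pos (by norm_num)
  have hL48 : 48 * Real.log 2 ≤ L := by
    have h1 := Real.log_le_log (by positivity) hNr
    rw [Real.log_pow] at h1
    exact_mod_cast h1
  have hL0 : 0 < L := by linarith
  have h1 := hn0 N hN0
  have h2 := hn0 (2 * N) (by omega)
  have hlog : Real.log ((2 * N : ℕ) : ℝ) = Real.log 2 + L := by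
    push_cast
    rw [Real.log_mul (by norm_num) hNpos.ne']
  rw [hlog] at h2
  push_cast at h2
  have hc : ((Bl N).card : ℝ) = (Nat.primeCounting (2 * N) : ℝ) - Nat.primeCounting N := by
    unfold Bl
    exact card_primes_Ioc (by omega)
  rw [hc]
  set x : ℝ := (Nat.primeCounting (2 * N) : ℝ) with hx
  set y : ℝ := (Nat.primeCounting N : ℝ) with hy
  have hx0 : 0 ≤ x := Nat.cast_nonneg _
  have hy0 : 0 ≤ y := Nat.cast_nonneg _
  constructor
  · rw [div_le_iff₀ (by positivity)]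
    -- `x (log 2 + L) ≥ 9/5 N`, `log 2 ≤ L / 48`
    have h3 : x * (Real.log 2 + L) ≤ x * (49 / 48 * L) := by
      apply mul_le_mul_of_nonneg_left _ hx0
      linarith
    nlinarith [h1.2, h2.1]
  · rw [le_div_iff₀ hL0]
    have h3 : x * L ≤ x * (Real.log 2 + L) := by
      apply mul_le_mul_of_nonneg_left _ hx0
      linarith
    have h4 : 0 ≤ y * L := by positivity
    nlinarith [h2.2]

/-- the energy of the primes in `(N, 2N]` -/
lemma block_energy : ∃ K : ℝ, 0 < K ∧ ∃ n1 : ℕ, ∀ N ≥ n1,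
    ∑ b ∈ Bl N, ∑ a ∈ (Bl N).filter (· < b), F (2 * (2 * b - 2 * a)) ^ 2 ≤
      K * ((Bl N).card : ℝ) ^ 2 := by
  obtain ⟨n1, hn48, hn1⟩ := card_Bl
  refine ⟨16 * K0 * W ^ 4 + 1, ?_, n1, fun N hN => ?_⟩
  · have := W_nonneg
    have := K0_pos
    positivity
  have hN48 : 2 ^ 48 ≤ N := hn48.trans hN
  have hNr : (2 : ℝ) ^ 48 ≤ N := by exact_mod_cast hN48
  have hNpos : (0 : ℝ) < N := lt_of_lt_of_le (by positivity) hNr
  have hL0 : 0 < Real.log N := Real.log_pos (by linarith [show (1 : ℝ) < 2 ^ 48 by norm_num])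
  have hcard := (hn1 N hN).1
  -- swap
  have h0 : ∑ b ∈ Bl N, ∑ a ∈ (Bl N).filter (· < b), F (2 * (2 * b - 2 * a)) ^ 2 =
      ∑ a ∈ Bl N, ∑ b ∈ (Bl N).filter (a < ·), F (2 * (2 * b - 2 * a)) ^ 2 := by
    apply Finset.sum_comm'
    intro x y
    simp only [Finset.mem_filter]
    tauto
  rw [h0]
  have h1 : ∀ a ∈ Bl N, ∑ b ∈ (Bl N).filter (a < ·), F (2 * (2 * b - 2 * a)) ^ 2 ≤
      ∑ d ∈ Icc 1 N, if (a + d).Prime then F (4 * d) ^ 2 else 0 := by
    intro a ha
    rw [mem_Bl] at ha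
    rw [← Finset.sum_filter]
    have h2 : ∑ b ∈ (Bl N).filter (a < ·), F (2 * (2 * b - 2 * a)) ^ 2 =
        ∑ d ∈ ((Bl N).filter (a < ·)).image (fun b => b - a), F (4 * d) ^ 2 := by
      rw [Finset.sum_image]
      · apply Finset.sum_congr rfl
        intro b _
        congr 2
        omega
      · intro b hb c hc hbc
        rw [Finset.mem_coe, Finset.mem_filter] at hb hc
        simp only at hbc
        omega
    rw [h2]
    apply Finset.sum_le_sum_of_subset_of_nonneg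
    · intro d hd
      rw [Finset.mem_image] at hd
      obtain ⟨b, hb, rfl⟩ := hd
      rw [Finset.mem_filter, mem_Bl] at hb
      rw [Finset.mem_filter, Finset.mem_Icc]
      refine ⟨⟨by omega, by omega⟩, ?_⟩
      rw [Nat.add_sub_cancel' hb.2.le]
      exact hb.1.2
    · intro d _ _
      positivity
  have h2 : ∑ a ∈ Bl N, ∑ b ∈ (Bl N).filter (a < ·), F (2 * (2 * b - 2 * a)) ^ 2 ≤
      ∑ d ∈ Icc 1 N, F (4 * d) ^ 2 * rr N d := by
    refine (Finset.sum_le_sum h1).trans ?_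
    rw [Finset.sum_comm]
    apply Finset.sum_le_sum
    intro d _
    rw [← Finset.sum_filter, Finset.sum_const, nsmul_eq_mul, mul_comm]
    unfold rr
    have h3 : (Bl N).filter (fun a => (a + d).Prime) =
        (Ioc N (2 * N)).filter (fun n => n.Prime ∧ (n + d).Prime) := by
      unfold Bl
      rw [Finset.filter_filter]
    rw [h3]
  refine h2.trans ?_
  have hK0 := K0_pos
  have h3 : ∀ d ∈ Icc 1 N, F (4 * d) ^ 2 * rr N d ≤
      K0 * N / Real.log N ^ 2 * F (4 * d) ^ 4 := by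
    intro d hd
    rw [Finset.mem_Icc] at hd
    have h4 := pairs_le (X := N) (d := d) (M := N) (N := N) hN48 (by omega) (by
      rw [Real.sqrt_le_left (by positivity)]
      have : (1 : ℝ) ≤ N := by linarith [show (1 : ℝ) < 2 ^ 48 by norm_num]
      nlinarith) le_rfl
    rw [← two_mul] at h4
    have h5 : F (2 * d) ≤ F (4 * d) := F_mono (by omega) ⟨2, by ring⟩
    have h6 : rr N d ≤ K0 * F (4 * d) ^ 2 * N / Real.log N ^ 2 := by
      unfold rr
      refine h4.trans ?_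
      have := F_nonneg (2 * d)
      gcongr
    calc F (4 * d) ^ 2 * rr N d ≤
        F (4 * d) ^ 2 * (K0 * F (4 * d) ^ 2 * N / Real.log N ^ 2) := by gcongr
      _ = _ := by ring
  refine (Finset.sum_le_sum h3).trans ?_
  rw [← Finset.mul_sum]
  have h4 := sum_F_four N
  have hW := W_nonneg
  have h5 : (N : ℝ) / Real.log N ≤ 2 * (Bl N).card := by
    have e1 : (N : ℝ) / Real.log N = 2 * (N / (2 * Real.log N)) := by
      field_simp
    rw [e1]
    linarith
  have h6 : ((N : ℝ) / Real.log N) ^ 2 ≤ (2 * (Bl N).card) ^ 2 :=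
    pow_le_pow_left₀ (by positivity) h5 2
  calc K0 * N / Real.log N ^ 2 * ∑ d ∈ Icc 1 N, F (4 * d) ^ 4
      ≤ K0 * N / Real.log N ^ 2 * (4 * W ^ 4 * N) := by gcongr
    _ = 4 * K0 * W ^ 4 * (N / Real.log N) ^ 2 := by
        field_simp
    _ ≤ 4 * K0 * W ^ 4 * (2 * (Bl N).card) ^ 2 := by gcongr
    _ = 16 * K0 * W ^ 4 * ((Bl N).card : ℝ) ^ 2 := by ring
    _ ≤ _ := by
        gcongr
        linarith

end Pool.Agent.LevyThin
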