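import Mathlib
import Pool.Agent.LevyThin.Least

/-!
# The size of the smaller summand: the two bounds
-/

namespace Pool.Agent.LevyThin

open Finset Filter
open Pool.Agent.Lib.PrimePairs
open scoped Pointwise

lemma large (T : ℝ) : ∃ X2 : ℕ, ∀ X ≥ X2, T ≤ Real.log (X : ℝ) ∧ 2 ≤ Real.log (Real.log (X : ℝ)) := by
  have h1 : Tendsto (fun X : ℕ => Real.log (X : ℝ)) atTop atTop :=
    Real.tendsto_log_atTop.comp tendsto_natCast_atTop_atTop
  have h2 : Tendsto (fun X : ℕ => Real.log (Real.log (X : ℝ))) atTop atTop :=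
    Real.tendsto_log_atTop.comp h1
  have h3 := (h1.eventually_ge_atTop T).and (h2.eventually_ge_atTop 2)
  rw [eventually_atTop] at h3
  exact h3

/-- the length of the block -/
lemma block_choice (C : ℝ) (hC : 0 < C) (hC1 : C ≤ 1) (n1 : ℕ) : ∃ X2 : ℕ, ∀ X ≥ X2, ∃ N : ℕ,
    n1 ≤ N ∧ 8 * N ≤ X ∧ C / 16 * (Real.log X * Real.log (Real.log X)) ≤ N ∧
    (N : ℝ) ≤ C / 8 * (Real.log X * Real.log (Real.log X)) ∧
    Real.log (Real.log X) / 2 ≤ Real.log N ∧ Real.log N ≤ 2 * Real.log (Real.log X) ∧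
    ∀ m : ℝ, Real.sqrt X ≤ m → 2 * (N : ℝ) ≤ C * (Real.log m * Real.log (Real.log m)) := by
  obtain ⟨X2, hX2⟩ := large ((16 / C) ^ 2 * (n1 + 1))
  refine ⟨max X2 (2 ^ 48), fun X hX => ?_⟩
  obtain ⟨hL, hl⟩ := hX2 X ((le_max_left _ _).trans hX)
  have hX48 : 2 ^ 48 ≤ X := (le_max_right _ _).trans hX
  have hXr : (2 : ℝ) ^ 48 ≤ X := by exact_mod_cast hX48
  have hXpos : (0 : ℝ) < X := lt_of_lt_of_le (by positivity) hXr
  have hX1 : (1 : ℝ) < X := by linarith [show (1 : ℝ) < 2 ^ 48 by norm_num]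
  set L := Real.log (X : ℝ) with hLdef
  set l := Real.log L with hldef
  have h16 : 16 ≤ 16 / C := by
    rw [le_div_iff₀ hC]
    linarith
  have hn1 : (0 : ℝ) ≤ n1 := Nat.cast_nonneg _
  have hL1 : (16 / C) ^ 2 ≤ L := by
    refine le_trans ?_ hL
    have : (16 / C) ^ 2 * 1 ≤ (16 / C) ^ 2 * (n1 + 1) := by
      apply mul_le_mul_of_nonneg_left _ (by positivity)
      linarith
    linarith
  have hL2 : 16 / C * (n1 + 1) ≤ L := by
    refine le_trans ?_ hL
    apply mul_le_mul_of_nonneg_right _ (by positivity)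
    nlinarith
  have hL256 : 256 ≤ L := by
    have : (16 : ℝ) ^ 2 ≤ (16 / C) ^ 2 := by gcongr
    linarith
  have hLpos : 0 < L := by linarith
  have hlL : l ≤ L := Real.log_le_self hLpos.le
  set x : ℝ := C / 8 * (L * l) with hx
  have hCL : 16 * (n1 + 1) ≤ C * L := by
    rw [div_mul_eq_mul_div, div_le_iff₀ hC] at hL2
    linarith
  have hx0 : 4 * (n1 + 1) ≤ x := by
    have h1 : C * L * 2 ≤ C * L * l := by
      apply mul_le_mul_of_nonneg_left hl (by positivity)
    rw [hx]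
    linarith
  have hx2 : 2 ≤ x := by linarith
  have hfl1 : (⌊x⌋₊ : ℝ) ≤ x := Nat.floor_le (by linarith)
  have hfl2 : x < ⌊x⌋₊ + 1 := Nat.lt_floor_add_one x
  have hNge : x / 2 ≤ (⌊x⌋₊ : ℝ) := by linarith
  have hNpos : (0 : ℝ) < (⌊x⌋₊ : ℝ) := by linarith
  have hsqrt : 1 ≤ Real.sqrt L := by
    rw [Real.one_le_sqrt]
    linarith
  have hsL : Real.sqrt L * Real.sqrt L = L := Real.mul_self_sqrt hLpos.le
  have hlogs : Real.log (Real.sqrt L) = l / 2 := by
    rw [Real.log_sqrt hLpos.le]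
  refine ⟨⌊x⌋₊, ?_, ?_, ?_, hfl1, ?_, ?_, ?_⟩
  · have h1 : (n1 : ℝ) ≤ (⌊x⌋₊ : ℝ) := by linarith
    exact_mod_cast h1
  · -- `8 N ≤ C L l ≤ L² ≤ X`
    have h1 : L ^ 4 ≤ 8 ^ 4 * Real.sqrt X := log_le_eight_root (P := X) (by omega)
    set S := Real.sqrt X with hS
    have hSS : S * S = X := Real.mul_self_sqrt hXpos.le
    have hS24 : (2 : ℝ) ^ 24 ≤ S := by
      rw [hS]
      apply Real.le_sqrt_of_sq_le
      have h24 : ((2 : ℝ) ^ 24) ^ 2 = (2 : ℝ) ^ 48 := by rw [← pow_mul]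
      rw [h24]
      exact hXr
    have h2 : L ^ 2 ≤ X := by
      rw [← pow_le_pow_iff_left₀ (by positivity) hXpos.le (two_ne_zero)]
      have h3 : (8 : ℝ) ^ 4 ≤ S ^ 3 := by
        calc (8 : ℝ) ^ 4 ≤ (2 ^ 24) ^ 3 := by norm_num
          _ ≤ S ^ 3 := by gcongr
      have hS0 : 0 ≤ S := Real.sqrt_nonneg _
      calc (L ^ 2) ^ 2 = L ^ 4 := by ring
        _ ≤ 8 ^ 4 * S := h1
        _ ≤ S ^ 3 * S := by gcongr
        _ = (S * S) ^ 2 := by ring
        _ = (X : ℝ) ^ 2 := by rw [hSS]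
    have h3 : 8 * (⌊x⌋₊ : ℝ) ≤ X := by
      have h4 : C * (L * l) ≤ 1 * (L * L) := by gcongr
      have h5 : 8 * x = C * (L * l) := by
        rw [hx]
        ring
      have h6 : 1 * (L * L) = L ^ 2 := by ring
      linarith
    exact_mod_cast h3
  · have h1 : C / 16 * (L * l) = x / 2 := by
      rw [hx]
      ring
    rw [h1]
    exact hNge
  · rw [← hlogs]
    apply Real.log_le_log (by linarith)
    refine le_trans ?_ hNge
    -- `√L ≤ x / 2 = C / 16 L l`
    have h1 : 1 ≤ C / 16 * Real.sqrt L := by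
      have h2 : 16 / C ≤ Real.sqrt L := Real.le_sqrt_of_sq_le hL1
      have h3 : C / 16 * (16 / C) ≤ C / 16 * Real.sqrt L := by gcongr
      have h4 : C / 16 * (16 / C) = 1 := by field_simp
      linarith
    have h5 : x / 2 = C / 16 * Real.sqrt L * (Real.sqrt L * l) := by
      have : C / 16 * Real.sqrt L * (Real.sqrt L * l) = C / 16 * ((Real.sqrt L * Real.sqrt L) * l) := by
        ring
      rw [this, hsL, hx]
      ring
    rw [h5]
    calc Real.sqrt L = 1 * (Real.sqrt L * 1) := by ring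
      _ ≤ C / 16 * Real.sqrt L * (Real.sqrt L * l) := by
        gcongr
        linarith
  · have h1 : (⌊x⌋₊ : ℝ) ≤ L ^ 2 := by
      refine hfl1.trans ?_
      rw [hx]
      have h4 : C / 8 * (L * l) ≤ 1 * (L * L) := by
        gcongr
        linarith
      linarith
    have h2 := Real.log_le_log hNpos h1
    rw [Real.log_pow] at h2
    push_cast at h2
    exact h2
  · intro m hm
    have hS0 : 0 < Real.sqrt X := Real.sqrt_pos.mpr hXpos
    have h1 : L / 2 ≤ Real.log m := by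
      rw [hLdef, ← Real.log_sqrt hXpos.le]
      exact Real.log_le_log hS0 hm
    have h2 : l / 2 ≤ Real.log (Real.log m) := by
      have h3 : Real.log (L / 2) ≤ Real.log (Real.log m) := Real.log_le_log (by linarith) h1
      rw [Real.log_div hLpos.ne' (by norm_num)] at h3
      have h4 : Real.log 2 < 0.6931471808 := Real.log_two_lt_d9
      linarith
    have h3 : L / 2 * (l / 2) ≤ Real.log m * Real.log (Real.log m) := by
      apply mul_le_mul h1 h2 (by linarith) (by linarith)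
    have h4 : C * (L / 2 * (l / 2)) ≤ C * (Real.log m * Real.log (Real.log m)) := by gcongr
    have h5 : C * (L / 2 * (l / 2)) = 2 * x := by
      rw [hx]
      ring
    linarith

/-- the `m ≤ 2X` of the form `2p + q`, `q ∈ Q`, with small `p` -/
def small (C : ℝ) (Q : Finset ℕ) (X : ℕ) : Set ℕ :=
  {m | m ≤ 2 * X ∧ ∃ p : ℕ, p.Prime ∧ p ≠ 2 ∧ ∃ q ∈ Q, q ≠ 2 ∧ m = 2 * p + q ∧
    (p : ℝ) ≤ C * (Real.log m * Real.log (Real.log m))}

lemma small_finite (C : ℝ) (Q : Finset ℕ) (X : ℕ) : (small C Q X).Finite :=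
  (Set.finite_Iic (2 * X)).subset fun _ hm => hm.1

/-- **the lower bound** -/
theorem small_lower : ∃ c : ℝ, 0 < c ∧ ∀ C δ : ℝ, 0 < C → C ≤ 1 → 0 < δ → δ ≤ 1 →
    ∃ X0 : ℕ, ∀ X ≥ X0, ∀ Qs : Finset ℕ, (∀ q ∈ Qs, q.Prime ∧ q ≤ X) →
      δ * X / Real.log X ≤ (Qs.card : ℝ) → c * C * δ ^ 2 * X ≤ ((small C Qs X).ncard : ℝ) := by
  obtain ⟨K, hK, n1, hn1⟩ := block_energy
  obtain ⟨n2, hn48, hn2⟩ := card_Bl
  have hK0 := K0_pos
  set D : ℝ := 2 * K0 * K with hD
  have hD0 : 0 < D := by positivity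
  refine ⟨1 / (128 * (1 + 3 / 2 * D)), by positivity, fun C δ hC hC1 hδ hδ1 => ?_⟩
  obtain ⟨X1, hX1, hS⟩ := sizes δ hδ
  obtain ⟨X2, hX2⟩ := block_choice C hC hC1 (max n1 n2)
  refine ⟨max X1 X2, fun X hX Qs hQs hQsc => ?_⟩
  have hXX1 : X1 ≤ X := (le_max_left _ _).trans hX
  have hXX2 : X2 ≤ X := (le_max_right _ _).trans hX
  have hX48 : 2 ^ 48 ≤ X := hX1.trans hXX1
  obtain ⟨hMX, hQ1, hQ2⟩ := hS X hXX1
  obtain ⟨N, hN1, hN8, hNlow, hNup, hNlog1, hNlog2, hNm⟩ := hX2 X hXX2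
  have hNn1 : n1 ≤ N := (le_max_left _ _).trans hN1
  have hNn2 : n2 ≤ N := (le_max_right _ _).trans hN1
  have hN48 : 2 ^ 48 ≤ N := hn48.trans hNn2
  have hXr : (2 : ℝ) ^ 48 ≤ X := by exact_mod_cast hX48
  have hXpos : (0 : ℝ) < X := lt_of_lt_of_le (by positivity) hXr
  have hNr : (2 : ℝ) ^ 48 ≤ N := by exact_mod_cast hN48
  have hNpos : (0 : ℝ) < N := lt_of_lt_of_le (by positivity) hNr
  have hlogN : 0 < Real.log N := Real.log_pos (by linarith [show (1 : ℝ) < 2 ^ 48 by norm_num])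
  set L := Real.log (X : ℝ) with hL
  have hL0 : 0 < L := Real.log_pos (by linarith [show (1 : ℝ) < 2 ^ 48 by norm_num])
  set l := Real.log L with hl
  have hl0 : 0 < l := by linarith
  set J := Bl N with hJ
  obtain ⟨hJ1, hJ2⟩ := hn2 N hNn2
  have hJlow : C / 64 * L ≤ (J.card : ℝ) := by
    refine le_trans ?_ hJ1
    rw [le_div_iff₀ (by positivity)]
    have h1 : C / 64 * L * (2 * Real.log N) ≤ C / 64 * L * (2 * (2 * l)) := by gcongr
    have h2 : C / 64 * L * (2 * (2 * l)) = C / 16 * (L * l) := by ring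
    linarith
  have hJup : (J.card : ℝ) ≤ 3 / 4 * C * L := by
    refine hJ2.trans ?_
    rw [div_le_iff₀ hlogN]
    have h1 : 3 / 4 * C * L * (l / 2) ≤ 3 / 4 * C * L * Real.log N := by gcongr
    have h2 : 3 / 4 * C * L * (l / 2) = 3 * (C / 8 * (L * l)) := by ring
    linarith
  have hj0 : 0 < (J.card : ℝ) := lt_of_lt_of_le (by positivity) hJlow
  -- the set Q
  set Q := Qs.filter (fun q => Nat.sqrt X + 1 < q) with hQdef
  have hQp : ∀ q ∈ Q, q.Prime ∧ Nat.sqrt X + 1 < q ∧ q ≤ X := by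
    intro q hq
    rw [hQdef, Finset.mem_filter] at hq
    exact ⟨(hQs q hq.1).1, hq.2, (hQs q hq.1).2⟩
  have hQlow : δ * X / (2 * L) ≤ (Q.card : ℝ) := by
    have h1 : Qs.card ≤ Q.card + (Icc 1 (Nat.sqrt X + 1)).card := by
      rw [← Finset.card_filter_add_card_filter_not (s := Qs) (fun q => Nat.sqrt X + 1 < q)]
      apply Nat.add_le_add_left
      apply Finset.card_le_card
      intro q hq
      rw [Finset.mem_filter] at hq
      rw [Finset.mem_Icc]
      exact ⟨(hQs q hq.1).1.pos, by omega⟩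
    rw [Nat.card_Icc, Nat.add_sub_cancel] at h1
    have h2 : (Qs.card : ℝ) ≤ Q.card + ((Nat.sqrt X + 1 : ℕ) : ℝ) := by exact_mod_cast h1
    have h3 : δ * X / L = δ * X / (2 * L) + δ * X / (2 * L) := by
      field_simp
      ring
    linarith
  have hq0 : 0 < (Q.card : ℝ) := lt_of_lt_of_le (by positivity) hQlow
  set h : ℕ → ℕ := fun p => 2 * p with hh
  have hmono : ∀ i ∈ J, ∀ j ∈ J, i < j → h i < h j := by
    intro i _ j _ hij
    simp only [hh]
    omega
  have hcore := core hX48 hMX J Q h hmono hQp (K * (J.card : ℝ) ^ 2) (hn1 N hNn1)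
  -- the sumset
  have hsub : ((J.image h + Q : Finset ℕ) : Set ℕ) ⊆ small C Qs X := by
    intro m hm
    rw [Finset.mem_coe, Finset.mem_add] at hm
    obtain ⟨x, hx, q, hq, rfl⟩ := hm
    rw [Finset.mem_image] at hx
    obtain ⟨p, hp, rfl⟩ := hx
    have hqp := hQp q hq
    rw [hJ, mem_Bl] at hp
    refine ⟨?_, p, hp.2, by omega, q, (Finset.mem_filter.mp hq).1, ?_, rfl, ?_⟩
    · simp only [hh]
      omega
    · have h3 : 2 ≤ Nat.sqrt X := by
        rw [Nat.le_sqrt]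
        omega
      omega
    · have hm1 : Real.sqrt X ≤ ((h p + q : ℕ) : ℝ) := by
        have h4 : Real.sqrt X ≤ (Nat.sqrt X : ℝ) + 1 := Real.real_sqrt_le_nat_sqrt_succ
        have h5 : ((Nat.sqrt X + 1 : ℕ) : ℝ) ≤ q := by exact_mod_cast hqp.2.1.le
        push_cast at h5 ⊢
        have : (0 : ℝ) ≤ (h p : ℝ) := Nat.cast_nonneg _
        linarith
      have h6 := hNm _ hm1
      have h7 : (p : ℝ) ≤ 2 * N := by exact_mod_cast hp.1.2
      linarith
  have hT : ((J.image h + Q).card : ℝ) ≤ ((small C Qs X).ncard : ℝ) := by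
    rw [← Set.ncard_coe_finset]
    exact_mod_cast Set.ncard_le_ncard hsub (small_finite _ _ _)
  refine le_trans ?_ hT
  set T : ℝ := ((J.image h + Q).card : ℝ) with hTdef
  set j : ℝ := (J.card : ℝ) with hjdef
  set q : ℝ := (Q.card : ℝ) with hqdef
  have hT0 : 0 ≤ T := Nat.cast_nonneg _
  -- numerics
  have h1 : j * q ≤ T * (1 + D * X * j / (L ^ 2 * q)) := by
    have e1 : j ^ 2 * q ^ 2 = (j * q) * (j * q) := by ring
    have e2 : T * (j * q + 2 * (K0 * X / L ^ 2 * (K * j ^ 2))) =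
        (T * (1 + D * X * j / (L ^ 2 * q))) * (j * q) := by
      rw [hD]
      field_simp
    rw [e1, e2] at hcore
    exact le_of_mul_le_mul_right hcore (by positivity)
  have h2 : D * X * j / (L ^ 2 * q) ≤ 3 / 2 * D / δ := by
    rw [div_le_div_iff₀ (by positivity) hδ]
    have h3 : D * X * j * δ ≤ D * X * (3 / 4 * C * L) * δ := by gcongr
    have h4 : D * X * (3 / 4 * C * L) * δ ≤ D * X * (3 / 4 * 1 * L) * δ := by gcongr
    have h5 : 3 / 2 * D * (L ^ 2 * (δ * X / (2 * L))) ≤ 3 / 2 * D * (L ^ 2 * q) := by gcongr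
    have h6 : 3 / 2 * D * (L ^ 2 * (δ * X / (2 * L))) = D * X * (3 / 4 * 1 * L) * δ := by
      field_simp
      norm_num
    linarith
  have h3 : 1 + 3 / 2 * D / δ ≤ (1 + 3 / 2 * D) / δ := by
    rw [add_div]
    have : 1 ≤ 1 / δ := by
      rw [le_div_iff₀ hδ]
      linarith
    linarith
  have h4 : j * q ≤ T * ((1 + 3 / 2 * D) / δ) := by
    refine h1.trans ?_
    apply mul_le_mul_of_nonneg_left _ hT0
    linarith
  have h5 : C / 64 * L * (δ * X / (2 * L)) ≤ j * q := by gcongr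
  have h6 : C / 64 * L * (δ * X / (2 * L)) = C * δ * X / 128 := by
    field_simp
    norm_num
  rw [h6] at h5
  have h7 : C * δ * X / 128 ≤ T * ((1 + 3 / 2 * D) / δ) := h5.trans h4
  rw [mul_div_assoc', le_div_iff₀ hδ] at h7
  have h8 : 1 / (128 * (1 + 3 / 2 * D)) * C * δ ^ 2 * X = (C * δ * X / 128 * δ) / (1 + 3 / 2 * D) := by
    field_simp
  rw [h8, div_le_iff₀ (by positivity)]
  exact h7

/-- **the upper bound** -/
theorem small_upper : ∀ C : ℝ, 0 < C → ∃ X0 : ℕ, ∀ X ≥ X0,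
    (({m : ℕ | m ≤ X ∧ ∃ p q : ℕ, p.Prime ∧ q.Prime ∧ m = 2 * p + q ∧
      (p : ℝ) ≤ C * (Real.log m * Real.log (Real.log m))}.ncard : ℕ) : ℝ) ≤ 3 * C * X := by
  intro C hC
  obtain ⟨n0, hn0⟩ := pi_bounds
  obtain ⟨X2, hX2⟩ := large ((2 / C) ^ 2 + 2 / C * (n0 + 2))
  refine ⟨max (max X2 n0) 3, fun X hX => ?_⟩
  have hXX2 : X2 ≤ X := ((le_max_left _ _).trans (le_max_left _ _)).trans hX
  have hXn0 : n0 ≤ X := ((le_max_right _ _).trans (le_max_left _ _)).trans hX
  have hX3 : 3 ≤ X := (le_max_right _ _).trans hX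
  obtain ⟨hL, hl⟩ := hX2 X hXX2
  have hXr : (3 : ℝ) ≤ X := by exact_mod_cast hX3
  have hXpos : (0 : ℝ) < X := by linarith
  set L := Real.log (X : ℝ) with hLdef
  set l := Real.log L with hldef
  have hL0 : 0 < L := Real.log_pos (by linarith)
  have hn0' : (0 : ℝ) ≤ n0 := Nat.cast_nonneg _
  have h2C : 0 < 2 / C := by positivity
  have hL1 : (2 / C) ^ 2 ≤ L := by
    have : 0 ≤ 2 / C * (n0 + 2) := by positivity
    linarith
  have hL2 : 2 / C * (n0 + 2) ≤ L := by
    have : 0 ≤ (2 / C) ^ 2 := by positivity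
    linarith
  have hCL : 2 * (n0 + 2) ≤ C * L := by
    rw [div_mul_eq_mul_div, div_le_iff₀ hC] at hL2
    linarith
  set y : ℝ := C * (L * l) with hy
  have hy0 : 2 * (n0 + 2) ≤ y := by
    have h1 : C * L * 1 ≤ C * L * l := by
      apply mul_le_mul_of_nonneg_left _ (by positivity)
      linarith
    rw [hy]
    linarith
  set Y := ⌊y⌋₊ with hY
  have hfl1 : (Y : ℝ) ≤ y := Nat.floor_le (by linarith)
  have hfl2 : y < Y + 1 := Nat.lt_floor_add_one y
  have hYge : y / 2 ≤ (Y : ℝ) := by linarith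
  have hYn0 : n0 ≤ Y := by
    have h1 : (n0 : ℝ) ≤ (Y : ℝ) := by linarith
    exact_mod_cast h1
  have hYpos : (0 : ℝ) < Y := by linarith
  have hsqrt : 0 < Real.sqrt L := Real.sqrt_pos.mpr hL0
  have hsL : Real.sqrt L * Real.sqrt L = L := Real.mul_self_sqrt hL0.le
  have hlogY : l / 2 ≤ Real.log Y := by
    rw [hldef, ← Real.log_sqrt hL0.le]
    apply Real.log_le_log hsqrt
    refine le_trans ?_ hYge
    have h2 : 2 / C ≤ Real.sqrt L := Real.le_sqrt_of_sq_le hL1
    have h3 : C / 2 * (2 / C) ≤ C / 2 * Real.sqrt L := by gcongr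
    have h4 : C / 2 * (2 / C) = 1 := by field_simp
    have h5 : y / 2 = C / 2 * Real.sqrt L * (Real.sqrt L * l) := by
      have : C / 2 * Real.sqrt L * (Real.sqrt L * l) = C / 2 * ((Real.sqrt L * Real.sqrt L) * l) := by
        ring
      rw [this, hsL, hy]
      ring
    rw [h5]
    calc Real.sqrt L = 1 * (Real.sqrt L * 1) := by ring
      _ ≤ C / 2 * Real.sqrt L * (Real.sqrt L * l) := by
        gcongr
        · linarith
        · linarith
  have hcnt : ∀ x : ℕ, (({p : ℕ | p.Prime} ∩ Set.Iic x).ncard : ℕ) = Nat.primeCounting x := by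
    intro x
    rw [Nat.primeCounting, Nat.primeCounting', Nat.count_eq_card_filter_range,
      ← Set.ncard_coe_finset]
    congr 1
    ext p
    simp only [Set.mem_inter_iff, Set.mem_ofPred_eq, Set.mem_Iic, Finset.coe_filter,
      Finset.mem_range]
    constructor
    · rintro ⟨h1, h2⟩
      exact ⟨by omega, h1⟩
    · rintro ⟨h1, h2⟩
      exact ⟨h2, by omega⟩
  have hYfin : ({p : ℕ | p.Prime} ∩ Set.Iic Y).Finite :=
    (Set.finite_Iic Y).subset Set.inter_subset_right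
  have hXfin : ({p : ℕ | p.Prime} ∩ Set.Iic X).Finite :=
    (Set.finite_Iic X).subset Set.inter_subset_right
  have h6 : {m : ℕ | m ≤ X ∧ ∃ p q : ℕ, p.Prime ∧ q.Prime ∧ m = 2 * p + q ∧
      (p : ℝ) ≤ C * (Real.log m * Real.log (Real.log m))}.ncard ≤
      Nat.primeCounting Y * Nat.primeCounting X := by
    have h7 : {m : ℕ | m ≤ X ∧ ∃ p q : ℕ, p.Prime ∧ q.Prime ∧ m = 2 * p + q ∧
      (p : ℝ) ≤ C * (Real.log m * Real.log (Real.log m))} ⊆
        (fun z : ℕ × ℕ => 2 * z.1 + z.2) ''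
          (({p : ℕ | p.Prime} ∩ Set.Iic Y) ×ˢ ({p : ℕ | p.Prime} ∩ Set.Iic X)) := by
      rintro m ⟨hm, p, q, hp, hq, hmpq, hpm⟩
      refine ⟨(p, q), ⟨⟨hp, ?_⟩, hq, ?_⟩, hmpq.symm⟩
      · rw [Set.mem_Iic, hY]
        apply Nat.le_floor
        refine hpm.trans ?_
        rw [hy]
        have hm2 : 2 ≤ m := by
          have := hp.two_le
          omega
        have hmr : (2 : ℝ) ≤ m := by exact_mod_cast hm2
        have hmX : (m : ℝ) ≤ X := by exact_mod_cast hm
        have hlm : 0 < Real.log m := Real.log_pos (by linarith)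
        have hlmX : Real.log m ≤ L := Real.log_le_log (by linarith) hmX
        have hllX : Real.log (Real.log m) ≤ l := Real.log_le_log hlm hlmX
        have hpp : (0 : ℝ) < p := by exact_mod_cast hp.pos
        have hll : 0 < Real.log (Real.log m) := by
          by_contra hcon
          push Not at hcon
          have h8 : C * (Real.log m * Real.log (Real.log m)) ≤ 0 :=
            mul_nonpos_of_nonneg_of_nonpos hC.le (mul_nonpos_of_nonneg_of_nonpos hlm.le hcon)
          linarith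
        gcongr
      · rw [Set.mem_Iic]
        omega
    have h8 := Set.ncard_le_ncard h7 ((hYfin.prod hXfin).image _)
    refine h8.trans ((Set.ncard_image_le (hYfin.prod hXfin)).trans (le_of_eq ?_))
    rw [Set.ncard_prod, hcnt, hcnt]
  have h7 : (({m : ℕ | m ≤ X ∧ ∃ p q : ℕ, p.Prime ∧ q.Prime ∧ m = 2 * p + q ∧
      (p : ℝ) ≤ C * (Real.log m * Real.log (Real.log m))}.ncard : ℕ) : ℝ) ≤
      (Nat.primeCounting Y : ℝ) * Nat.primeCounting X := by exact_mod_cast h6
  refine h7.trans ?_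
  have h8 := (hn0 Y hYn0).2
  have h9 := (hn0 X hXn0).2
  have h10 : (Nat.primeCounting Y : ℝ) ≤ 11 / 5 * (C * L) := by
    have h11 : (Nat.primeCounting Y : ℝ) * (l / 2) ≤ (Nat.primeCounting Y : ℝ) * Real.log Y := by
      gcongr
    have h12 : (Nat.primeCounting Y : ℝ) * (l / 2) ≤ 11 / 5 * (C * L) * (l / 2) := by
      have h13 : 11 / 5 * (C * L) * (l / 2) = 11 / 10 * y := by
        rw [hy]
        ring
      rw [h13]
      linarith
    exact le_of_mul_le_mul_right h12 (by linarith)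
  have h11 : (Nat.primeCounting X : ℝ) ≤ 11 / 10 * X / L := by
    rw [le_div_iff₀ hL0]
    exact h9
  calc (Nat.primeCounting Y : ℝ) * Nat.primeCounting X ≤
      11 / 5 * (C * L) * (11 / 10 * X / L) := by gcongr
    _ = 121 / 50 * (C * X) := by
        field_simp
        ring
    _ ≤ 3 * C * X := by
        have : 0 < C * X := by positivity
        linarith

end Pool.Agent.LevyThin
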