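import Mathlib
import Pool.Agent.LeX.LinS
import Pool.Agent.LeX.Smooth
import Pool.Agent.LeX.SumF

/-!
# Primes `p ≤ Y` such that `p + 1` has no prime factor in `(w, z/2]`
-/

namespace Pool.Agent.LevyThin

open Finset
open Pool.Agent.Lib.PrimePairs Pool.Agent.LeX

open Classical in
/-- the primes `p ≤ Y` such that `p + 1` has no prime factor in `(w, z/2]` -/
noncomputable def S1 (w z Y : ℕ) : Finset ℕ :=
  (Icc 1 Y).filter (fun p => p.Prime ∧ ∀ l : ℕ, l.Prime → w < l → l ≤ z / 2 → ¬ l ∣ p + 1)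

open Classical in
lemma mem_S1 {w z Y p : ℕ} : p ∈ S1 w z Y ↔ (1 ≤ p ∧ p ≤ Y) ∧ p.Prime ∧
    ∀ l : ℕ, l.Prime → w < l → l ≤ z / 2 → ¬ l ∣ p + 1 := by
  unfold S1
  rw [Finset.mem_filter, Finset.mem_Icc]

/-- the sum over the cofactors -/
lemma sum_F_two : ∃ C : ℝ, 0 < C ∧ ∀ M : ℕ, 1 ≤ M →
    ∑ a ∈ Icc 1 M, F (2 * (1 * a)) ^ 2 / (a : ℝ) ≤ C * (1 + Real.log M) := by
  obtain ⟨C, hC, h⟩ := sum_F_sq_div_le
  refine ⟨(F 2 ^ 2 + 1) * C, by positivity, fun M hM => ?_⟩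
  have h1 := h M hM
  have h0 : 0 ≤ ∑ m ∈ Icc 1 M, F m ^ 2 / (m : ℝ) :=
    Finset.sum_nonneg fun m _ => by positivity
  calc ∑ a ∈ Icc 1 M, F (2 * (1 * a)) ^ 2 / (a : ℝ)
      ≤ ∑ a ∈ Icc 1 M, F 2 ^ 2 * (F a ^ 2 / a) := by
        refine Finset.sum_le_sum fun a ha => ?_
        rw [Finset.mem_Icc] at ha
        have ha0 : (0 : ℝ) < a := by exact_mod_cast ha.1
        have h2 : F (2 * (1 * a)) ≤ F 2 * F a := by
          rw [one_mul]
          exact F_mul_le 2 a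
        have h3 : F (2 * (1 * a)) ^ 2 ≤ (F 2 * F a) ^ 2 :=
          pow_le_pow_left₀ (F_nonneg _) h2 2
        rw [← mul_div_assoc, ← mul_pow]
        gcongr
    _ = F 2 ^ 2 * ∑ a ∈ Icc 1 M, F a ^ 2 / a := by rw [Finset.mul_sum]
    _ ≤ (F 2 ^ 2 + 1) * ∑ a ∈ Icc 1 M, F a ^ 2 / a := by
        apply mul_le_mul_of_nonneg_right _ h0
        linarith
    _ ≤ (F 2 ^ 2 + 1) * (C * (1 + Real.log M)) := by gcongr
    _ = _ := by ring

/-- **the number of these primes** -/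
theorem card_S1_le : ∃ C : ℝ, 0 < C ∧ ∀ w z Y y M : ℕ, 2 ≤ y → y ^ 2 ≤ z / 2 → 1 ≤ M →
    (Y + 1) / (z / 2 + 1) ≤ M →
    ((S1 w z Y).card : ℝ) ≤ ((Sm w (Y + 1)).card : ℝ) + 2 * M * (y : ℝ) ^ 12 +
      C * Y * (1 + Real.log M) / Real.log y ^ 2 := by
  classical
  obtain ⟨C, hC, hF⟩ := sum_F_two
  refine ⟨8 * C, by positivity, fun w z Y y M hy hyz hM hYM => ?_⟩
  set lin : ℕ → Finset ℕ := fun a => (Icc 1 Y).filter
    (fun x => (1 ∣ x ∧ (x / 1).Prime ∧ y ^ 2 < x / 1) ∧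
      (a ∣ x + 1 ∧ ((x + 1) / a).Prime ∧ y ^ 2 < (x + 1) / a)) with hlin
  have hsub : S1 w z Y ⊆ ((Sm w (Y + 1)).image (fun n => n - 1) ∪ Icc 1 (y ^ 2)) ∪
      (Icc 1 M).biUnion lin := by
    intro p hp
    rw [mem_S1] at hp
    obtain ⟨⟨hp1, hpY⟩, hpp, hl⟩ := hp
    by_cases hsm : ∀ l : ℕ, l.Prime → l ∣ p + 1 → l ≤ w
    · rw [Finset.mem_union, Finset.mem_union]
      left; left
      rw [Finset.mem_image]
      exact ⟨p + 1, mem_Sm.mpr ⟨⟨by omega, by omega⟩, hsm⟩, by omega⟩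
    · push Not at hsm
      obtain ⟨l, hlp, hld, hlw⟩ := hsm
      have hlz : z / 2 < l := by
        by_contra hcon
        exact hl l hlp hlw (by omega) hld
      by_cases hpy : p ≤ y ^ 2
      · rw [Finset.mem_union, Finset.mem_union]
        left; right
        rw [Finset.mem_Icc]
        exact ⟨hp1, hpy⟩
      · rw [Finset.mem_union]
        right
        obtain ⟨a, ha⟩ := hld
        have ha0 : 0 < a := by
          rcases Nat.eq_zero_or_pos a with h | h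
          · rw [h] at ha
            omega
          · exact h
        have hdiv : (p + 1) / a = l := by
          rw [ha]
          exact Nat.mul_div_cancel _ ha0
        rw [Finset.mem_biUnion]
        refine ⟨a, ?_, ?_⟩
        · rw [Finset.mem_Icc]
          refine ⟨ha0, ?_⟩
          refine le_trans ?_ hYM
          rw [Nat.le_div_iff_mul_le (by omega)]
          calc a * (z / 2 + 1) ≤ a * l := Nat.mul_le_mul_left _ hlz
            _ = p + 1 := by rw [ha]; ring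
            _ ≤ Y + 1 := by omega
        · rw [hlin]
          simp only
          rw [Finset.mem_filter, Finset.mem_Icc, Nat.div_one, hdiv]
          exact ⟨⟨hp1, hpY⟩, ⟨one_dvd _, hpp, by omega⟩, Dvd.intro_left l ha.symm, hlp, by omega⟩
  have hcard : ((S1 w z Y).card : ℝ) ≤ (((Sm w (Y + 1)).card : ℝ) + (y : ℝ) ^ 2) +
      ∑ a ∈ Icc 1 M, ((lin a).card : ℝ) := by
    have h1 : (S1 w z Y).card ≤ ((Sm w (Y + 1)).card + y ^ 2) + ∑ a ∈ Icc 1 M, (lin a).card := by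
      refine (Finset.card_le_card hsub).trans ((Finset.card_union_le _ _).trans ?_)
      refine Nat.add_le_add ((Finset.card_union_le _ _).trans ?_) Finset.card_biUnion_le
      refine Nat.add_le_add Finset.card_image_le ?_
      rw [Nat.card_Icc, Nat.add_sub_cancel]
    exact_mod_cast h1
  have hlog : 0 < Real.log y := Real.log_pos (by exact_mod_cast (by omega : 1 < y))
  have hlinle : ∀ a ∈ Icc 1 M, ((lin a).card : ℝ) ≤
      8 * Y / Real.log y ^ 2 * (F (2 * (1 * a)) ^ 2 / (a : ℝ)) + (y : ℝ) ^ 12 := by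
    intro a ha
    rw [Finset.mem_Icc] at ha
    have h1 := card_lin_le 1 a Y y one_pos ha.1 (Nat.coprime_one_left a) hy
    refine h1.trans (le_of_eq ?_)
    push_cast
    ring
  have hMr : (1 : ℝ) ≤ M := by exact_mod_cast hM
  have hy1 : (1 : ℝ) ≤ y := by exact_mod_cast (by omega : 1 ≤ y)
  have hsum : ∑ a ∈ Icc 1 M, ((lin a).card : ℝ) ≤
      8 * Y / Real.log y ^ 2 * (C * (1 + Real.log M)) + M * (y : ℝ) ^ 12 := by
    refine (Finset.sum_le_sum hlinle).trans ?_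
    rw [Finset.sum_add_distrib, ← Finset.mul_sum, Finset.sum_const, Nat.card_Icc,
      Nat.add_sub_cancel, nsmul_eq_mul]
    gcongr
    exact hF M hM
  have hy2 : (y : ℝ) ^ 2 ≤ M * (y : ℝ) ^ 12 := by
    calc (y : ℝ) ^ 2 ≤ (y : ℝ) ^ 12 := pow_le_pow_right₀ hy1 (by norm_num)
      _ = 1 * (y : ℝ) ^ 12 := by ring
      _ ≤ M * (y : ℝ) ^ 12 := by gcongr
  have he : 8 * C * Y * (1 + Real.log M) / Real.log y ^ 2 =
      8 * Y / Real.log y ^ 2 * (C * (1 + Real.log M)) := by ring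
  rw [he]
  linarith

end Pool.Agent.LevyThin
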