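import Mathlib
import Pool.Agent.LevyThin.RankA
import Pool.Agent.LeX.Greedy

/-!
# Covering the primes up to `Y` by residue classes
-/

namespace Pool.Agent.LevyThin

open Finset

/-- one prime -/
lemma gr_step (S : Finset ℕ) (p : ℕ) (hp : 0 < p) :
    ∃ r : ℕ, ((S.filter (fun x => ¬ x ≡ r [MOD p])).card : ℝ) ≤ (1 - 1 / (p : ℝ)) * S.card := by
  classical
  have hpr : (0 : ℝ) < p := by exact_mod_cast hp
  have h1 : S.card = ∑ r ∈ range p, (S.filter (fun x => x % p = r)).card := by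
    apply Finset.card_eq_sum_card_fiberwise
    intro x _
    rw [Finset.mem_coe, Finset.mem_range]
    exact Nat.mod_lt x hp
  have h2 : ∑ r ∈ range p, ((S.card : ℝ) / p) ≤
      ∑ r ∈ range p, ((S.filter (fun x => x % p = r)).card : ℝ) := by
    rw [Finset.sum_const, Finset.card_range, nsmul_eq_mul, mul_div_cancel₀ _ hpr.ne']
    exact_mod_cast h1.le
  obtain ⟨r, hr, hr1⟩ := Finset.exists_le_of_sum_le
    (Finset.nonempty_range_iff.mpr (by omega)) h2
  rw [Finset.mem_range] at hr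
  refine ⟨r, ?_⟩
  have h3 : (S.filter (fun x => x ≡ r [MOD p])).card +
      (S.filter (fun x => ¬ x ≡ r [MOD p])).card = S.card :=
    Finset.card_filter_add_card_filter_not _
  have h4 : S.filter (fun x => x ≡ r [MOD p]) = S.filter (fun x => x % p = r) := by
    apply Finset.filter_congr
    intro x _
    unfold Nat.ModEq
    rw [Nat.mod_eq_of_lt hr]
  rw [h4] at h3
  have h5 : ((S.filter (fun x => x % p = r)).card : ℝ) +
      ((S.filter (fun x => ¬ x ≡ r [MOD p])).card : ℝ) = S.card := by exact_mod_cast h3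
  have h6 : (1 - 1 / (p : ℝ)) * S.card = S.card - S.card / p := by ring
  rw [h6]
  linarith

/-- all primes of a finite set -/
lemma gr_all (Q : Finset ℕ) (hQ : ∀ p ∈ Q, 1 ≤ p) (S : Finset ℕ) :
    ∃ r : ℕ → ℕ, ((S.filter (fun x => ∀ p ∈ Q, ¬ x ≡ r p [MOD p])).card : ℝ) ≤
      (∏ p ∈ Q, (1 - 1 / (p : ℝ))) * S.card := by
  classical
  induction Q using Finset.induction_on generalizing S with
  | empty =>
    refine ⟨fun _ => 0, ?_⟩
    simp
  | insert p Q hpQ ih =>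
    have hp := hQ p (mem_insert_self _ _)
    obtain ⟨r0, hr0⟩ := gr_step S p (by omega)
    obtain ⟨r, hr⟩ := ih (fun q hq => hQ q (mem_insert_of_mem hq))
      (S.filter (fun x => ¬ x ≡ r0 [MOD p]))
    refine ⟨Function.update r p r0, ?_⟩
    have hprod : 0 ≤ ∏ q ∈ Q, (1 - 1 / (q : ℝ)) := by
      refine prod_nonneg fun q hq => ?_
      have h2 : (1 : ℝ) ≤ q := by exact_mod_cast hQ q (mem_insert_of_mem hq)
      rw [sub_nonneg, div_le_one (by linarith)]
      exact h2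
    have hsub : S.filter (fun x => ∀ q ∈ insert p Q, ¬ x ≡ Function.update r p r0 q [MOD q]) ⊆
        (S.filter (fun x => ¬ x ≡ r0 [MOD p])).filter (fun x => ∀ q ∈ Q, ¬ x ≡ r q [MOD q]) := by
      intro x hx
      rw [Finset.mem_filter] at hx
      rw [Finset.mem_filter, Finset.mem_filter]
      refine ⟨⟨hx.1, ?_⟩, ?_⟩
      · have := hx.2 p (mem_insert_self _ _)
        rwa [Function.update_self] at this
      · intro q hq
        have hqp : q ≠ p := by
          rintro rfl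
          exact hpQ hq
        have := hx.2 q (mem_insert_of_mem hq)
        rwa [Function.update_of_ne hqp] at this
    calc ((S.filter (fun x => ∀ q ∈ insert p Q,
          ¬ x ≡ Function.update r p r0 q [MOD q])).card : ℝ)
        ≤ (((S.filter (fun x => ¬ x ≡ r0 [MOD p])).filter
          (fun x => ∀ q ∈ Q, ¬ x ≡ r q [MOD q])).card : ℝ) := by
          exact_mod_cast Finset.card_le_card hsub
      _ ≤ (∏ q ∈ Q, (1 - 1 / (q : ℝ))) * (S.filter (fun x => ¬ x ≡ r0 [MOD p])).card := hr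
      _ ≤ (∏ q ∈ Q, (1 - 1 / (q : ℝ))) * ((1 - 1 / (p : ℝ)) * S.card) := by gcongr
      _ = _ := by
        rw [Finset.prod_insert hpQ]
        ring

lemma gr_all' (Q : Finset ℕ) (hQ : ∀ p ∈ Q, 1 ≤ p) (S : Finset ℕ) :
    ∃ (r : ℕ → ℕ) (S2 : Finset ℕ), (∀ x, x ∈ S2 ↔ x ∈ S ∧ ∀ p ∈ Q, ¬ x ≡ r p [MOD p]) ∧
      (S2.card : ℝ) ≤ (∏ p ∈ Q, (1 - 1 / (p : ℝ))) * S.card := by
  obtain ⟨r, hr⟩ := gr_all Q hQ S
  exact ⟨r, _, fun x => Finset.mem_filter, hr⟩

/-- Mertens' product -/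
lemma prod_one_le : ∃ C : ℝ, 0 < C ∧ ∀ z : ℕ, 2 ≤ z →
    ∏ p ∈ (Icc 3 z).filter Nat.Prime, (1 - 1 / (p : ℝ)) ≤ C / Real.log z := by
  obtain ⟨C, hC, h⟩ := Pool.Agent.LeX.prod_le
  refine ⟨Real.sqrt C, Real.sqrt_pos.mpr hC, fun z hz => ?_⟩
  have hlog : 0 < Real.log z := Real.log_pos (by exact_mod_cast (by omega : 1 < z))
  have h1 : (∏ p ∈ (Icc 3 z).filter Nat.Prime, (1 - 1 / (p : ℝ))) ^ 2 ≤
      ∏ p ∈ (Icc 3 z).filter Nat.Prime, (1 - 2 / ((p : ℝ) + 1)) := by
    rw [← Finset.prod_pow]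
    apply Finset.prod_le_prod
    · intro p _
      positivity
    · intro p hp
      rw [Finset.mem_filter, Finset.mem_Icc] at hp
      have hp3 : (3 : ℝ) ≤ p := by exact_mod_cast hp.1.1
      have hp0 : (0 : ℝ) < p := by linarith
      have e1 : (1 - 2 / ((p : ℝ) + 1)) - (1 - 1 / (p : ℝ)) ^ 2 =
          (p - 1) / (p ^ 2 * (p + 1)) := by
        field_simp
        ring
      have e2 : 0 ≤ ((p : ℝ) - 1) / (p ^ 2 * (p + 1)) := by
        apply div_nonneg
        · linarith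
        · positivity
      linarith
  have h2 : (∏ p ∈ (Icc 3 z).filter Nat.Prime, (1 - 1 / (p : ℝ))) ^ 2 ≤
      (Real.sqrt C / Real.log z) ^ 2 := by
    rw [div_pow, Real.sq_sqrt hC.le]
    exact h1.trans (h z hz)
  have h3 : 0 ≤ Real.sqrt C / Real.log z := by positivity
  exact (abs_le_of_sq_le_sq' h2 h3).2

/-- **covering** -/
theorem cover (w z Y : ℕ) (hw : 2 ≤ w) (hwz : w ≤ z / 2)
    (h : (∏ p ∈ (Icc 3 w).filter Nat.Prime, (1 - 1 / (p : ℝ))) * (S1 w z Y).card ≤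
      (((Ioc (z / 2) z).filter Nat.Prime).card : ℝ)) (hz : 4 ≤ z) :
    ∃ r : ℕ → ℕ, ∀ p : ℕ, p.Prime → p ≤ Y → ∃ l : ℕ, l.Prime ∧ l ≠ 2 ∧ l ≤ z ∧
      2 * p ≡ r l [MOD l] := by
  classical
  obtain ⟨s, S2, hS2, hs⟩ := gr_all' ((Icc 3 w).filter Nat.Prime) (fun p hp => by
    rw [Finset.mem_filter, Finset.mem_Icc] at hp
    omega) (S1 w z Y)
  have hcard : S2.card ≤ ((Ioc (z / 2) z).filter Nat.Prime).card := by
    have := hs.trans h
    exact_mod_cast this
  obtain ⟨f, hf, hfinj⟩ : ∃ f : ℕ → ℕ, (∀ x ∈ S2, f x ∈ (Ioc (z / 2) z).filter Nat.Prime) ∧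
      Set.InjOn f S2 := by
    obtain ⟨T, hT1, hT2⟩ := Finset.exists_subset_card_eq hcard
    obtain ⟨e⟩ : Nonempty (S2 ≃ T) := by
      rw [← Fintype.card_eq, Fintype.card_coe, Fintype.card_coe, hT2]
    refine ⟨fun x => if hx : x ∈ S2 then (e ⟨x, hx⟩ : ℕ) else 0, ?_, ?_⟩
    · intro x hx
      simp only [hx, dif_pos]
      exact hT1 (e ⟨x, hx⟩).2
    · intro x hx y hy hxy
      rw [Finset.mem_coe] at hx hy
      simp only [hx, hy, dif_pos] at hxy
      have h1 := e.injective (Subtype.ext hxy)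
      exact congrArg Subtype.val h1
  -- the residue at a large prime
  set g : ℕ → ℕ := fun l => if hx : ∃ x ∈ S2, f x = l then 2 * hx.choose else 0 with hg
  have hgf : ∀ x ∈ S2, g (f x) = 2 * x := by
    intro x hx
    have hex : ∃ x' ∈ S2, f x' = f x := ⟨x, hx, rfl⟩
    have h1 := hex.choose_spec
    have h2 : hex.choose = x := hfinj h1.1 hx h1.2
    simp only [hg]
    rw [dif_pos hex, h2]
  refine ⟨fun l => if l ≤ w then 2 * s l else if l ≤ z / 2 then l - 2 else g l, ?_⟩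
  intro p hp hpY
  by_cases h1 : p ∈ S1 w z Y
  · by_cases h2 : p ∈ S2
    · have h3 := hf p h2
      rw [Finset.mem_filter, Finset.mem_Ioc] at h3
      refine ⟨f p, h3.2, by omega, h3.1.2, ?_⟩
      have h4 : ¬ f p ≤ w := by omega
      have h5 : ¬ f p ≤ z / 2 := by omega
      simp only [h4, h5, if_false]
      rw [hgf p h2]
    · rw [hS2] at h2
      push Not at h2
      obtain ⟨l, hl, hl1⟩ := h2 h1
      rw [Finset.mem_filter, Finset.mem_Icc] at hl
      refine ⟨l, hl.2, by omega, by omega, ?_⟩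
      simp only [hl.1.2, if_true]
      exact Nat.ModEq.mul_left 2 hl1
  · rw [mem_S1] at h1
    push Not at h1
    obtain ⟨l, hlp, hlw, hlz, hld⟩ := h1 ⟨hp.pos, hpY⟩ hp
    refine ⟨l, hlp, by omega, by omega, ?_⟩
    have h4 : ¬ l ≤ w := by omega
    simp only [h4, hlz, if_false, if_true]
    have hl3 : 2 ≤ l := hlp.two_le
    have h5 : 2 * p + 2 ≡ l - 2 + 2 [MOD l] := by
      have h6 : 2 * p + 2 ≡ 0 [MOD l] := by
        rw [Nat.modEq_zero_iff_dvd]
        have : 2 * p + 2 = 2 * (p + 1) := by ring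
        rw [this]
        exact Dvd.dvd.mul_left hld 2
      have h7 : l - 2 + 2 = l := by omega
      rw [h7]
      exact h6.trans ((Nat.modEq_zero_iff_dvd).mpr dvd_rfl).symm
    exact Nat.ModEq.add_right_cancel' 2 h5

end Pool.Agent.LevyThin
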