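import Mathlib
import Pool.Agent.LevyThin.RankB
import Pool.Agent.LevyThin.Sieve

/-!
# The number of uncovered primes
-/

namespace Pool.Agent.LevyThin

open Finset Filter
open Pool.Agent.Lib.PrimePairs Pool.Agent.LeX

lemma ev_L : Tendsto (fun z : ℕ => Real.log (z : ℝ)) atTop atTop :=
  Real.tendsto_log_atTop.comp tendsto_natCast_atTop_atTop

lemma ev_l : Tendsto (fun z : ℕ => Real.log (Real.log (z : ℝ))) atTop atTop :=
  Real.tendsto_log_atTop.comp ev_L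

lemma ev_lL (c : ℝ) (hc : 0 < c) :
    ∀ᶠ z : ℕ in atTop, Real.log (Real.log (z : ℝ)) ^ 2 ≤ c * Real.log z := by
  have h := (Real.isLittleO_pow_log_id_atTop (n := 2)).bound hc
  have h2 := ev_L.eventually h
  have h3 := ev_L.eventually (eventually_ge_atTop (0 : ℝ))
  filter_upwards [h2, h3] with y h4 h5
  simp only [id, Real.norm_eq_abs] at h4
  rw [abs_of_nonneg h5] at h4
  exact (le_abs_self _).trans h4

lemma ev_Lexp : ∀ᶠ z : ℕ in atTop, 2 * Real.log (z : ℝ) ^ 5 ≤ Real.exp (Real.log z / 2) := by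
  have h : ∀ᶠ x : ℝ in atTop, 2 * x ^ 5 ≤ Real.exp (x / 2) := by
    have h1 := (isLittleO_pow_exp_pos_mul_atTop (k := 5) (b := (1 / 2 : ℝ)) (by norm_num)).bound
      (c := 1 / 2) (by norm_num)
    filter_upwards [h1] with x hx
    rw [Real.norm_eq_abs, Real.norm_eq_abs, abs_of_pos (Real.exp_pos _)] at hx
    have e : (1 : ℝ) / 2 * x = x / 2 := by ring
    rw [e] at hx
    have := (le_abs_self _).trans hx
    linarith
  exact ev_L.eventually h

/-- primes in the upper half -/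
lemma half_primes : ∀ᶠ z : ℕ in atTop,
    (z : ℝ) / (8 * Real.log z) ≤ (((Ioc (z / 2) z).filter Nat.Prime).card : ℝ) := by
  obtain ⟨n0, hn0⟩ := pi_bounds
  filter_upwards [ev_L.eventually_ge_atTop 20, eventually_ge_atTop (2 * n0 + 8)] with z hL hz
  set L := Real.log (z : ℝ) with hLdef
  have hzr : (8 : ℝ) ≤ z := by exact_mod_cast (by omega : 8 ≤ z)
  have hzpos : (0 : ℝ) < z := by linarith
  have hL0 : 0 < L := by linarith
  rw [card_primes_Ioc (Nat.div_le_self z 2)]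
  have h1 := (hn0 z (by omega)).1
  have h2 := (hn0 (z / 2) (by omega)).2
  have hz2 : ((z / 2 : ℕ) : ℝ) ≤ z / 2 := Nat.cast_div_le
  have hz4 : (z : ℝ) / 4 ≤ ((z / 2 : ℕ) : ℝ) := by
    have h3 : z ≤ 4 * (z / 2) := by omega
    have h4 : (z : ℝ) ≤ 4 * ((z / 2 : ℕ) : ℝ) := by exact_mod_cast h3
    linarith
  have hlog : 9 / 10 * L ≤ Real.log ((z / 2 : ℕ) : ℝ) := by
    have h3 : Real.log ((z : ℝ) / 4) ≤ Real.log ((z / 2 : ℕ) : ℝ) :=
      Real.log_le_log (by linarith) hz4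
    rw [Real.log_div hzpos.ne' (by norm_num)] at h3
    have h4 : Real.log 4 = 2 * Real.log 2 := by
      rw [show (4 : ℝ) = 2 ^ 2 by norm_num, Real.log_pow]
      norm_num
    have h5 : Real.log 2 < 0.6931471808 := Real.log_two_lt_d9
    linarith
  set x : ℝ := (Nat.primeCounting z : ℝ) with hx
  set y : ℝ := (Nat.primeCounting (z / 2) : ℝ) with hy
  have hy0 : 0 ≤ y := Nat.cast_nonneg _
  have h3 : y * (9 / 10 * L) ≤ y * Real.log ((z / 2 : ℕ) : ℝ) := by gcongr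
  rw [div_le_iff₀ (by positivity)]
  nlinarith

lemma nat_half {z : ℕ} (hz48 : 2 ^ 48 ≤ z) {n : ℕ} (h : (n : ℝ) ≤ Real.sqrt z) : n ≤ z / 2 := by
  have h2 : 24 < Nat.sqrt z := by
    rw [← Nat.succ_le_iff, Nat.le_sqrt]
    omega
  have h3 : Real.sqrt (z : ℝ) ≤ (Nat.sqrt z : ℝ) + 1 := Real.real_sqrt_le_nat_sqrt_succ
  have h4 : (n : ℝ) ≤ ((Nat.sqrt z + 1 : ℕ) : ℝ) := by
    push_cast
    linarith
  have h5 : n ≤ Nat.sqrt z + 1 := by exact_mod_cast h4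
  have h6 : Nat.sqrt z * Nat.sqrt z ≤ z := Nat.sqrt_le z
  have h7 : 24 * Nat.sqrt z ≤ Nat.sqrt z * Nat.sqrt z := Nat.mul_le_mul_right _ h2.le
  omega

/-- the choice of `w` -/
lemma w_choice {z : ℕ} {B L l : ℝ} (hz48 : 2 ^ 48 ≤ z) (hLdef : Real.log (z : ℝ) = L) (hl : 4 ≤ l)
    (hB5 : 5 ≤ B) (h6 : 6 * B * l ≤ L) : ∃ w : ℕ, 32 ≤ w ∧ w ≤ z / 2 ∧
      Real.log w ≤ L / (B * l) ∧ L / (2 * (B * l)) ≤ Real.log w ∧ Real.log w ≤ L ∧
      0 < Real.log w := by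
  have hzr : (2 : ℝ) ^ 48 ≤ z := by exact_mod_cast hz48
  have hzpos : (0 : ℝ) < z := lt_of_lt_of_le (by positivity) hzr
  have hB0 : 0 < B := by linarith
  have hl0 : 0 < l := by linarith
  have hBl20 : 20 ≤ B * l := by nlinarith
  have hBl : 0 < B * l := by linarith
  have hL0 : 0 < L := by nlinarith
  have hexpL : Real.exp L = z := by rw [← hLdef, Real.exp_log hzpos]
  have hsqrt : Real.sqrt (z : ℝ) = Real.exp (L / 2) := by
    rw [← hexpL, ← Real.exp_half]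
  set x0 : ℝ := Real.exp (L / (B * l)) with hx0
  have hexp6 : 6 ≤ L / (B * l) := by
    rw [le_div_iff₀ hBl]
    linarith
  have hx064 : 64 ≤ x0 := by
    have h1 : Real.exp 6 ≤ x0 := Real.exp_le_exp.mpr hexp6
    have h2 : (64 : ℝ) ≤ Real.exp 6 := by
      have h3 : Real.exp 6 = Real.exp 1 ^ 6 := by
        rw [← Real.exp_nat_mul]
        norm_num
      rw [h3]
      have h4 : (2 : ℝ) ≤ Real.exp 1 := by
        have := Real.exp_one_gt_d9
        linarith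
      calc (64 : ℝ) = 2 ^ 6 := by norm_num
        _ ≤ Real.exp 1 ^ 6 := by gcongr
    linarith
  have hw1 : ((⌊x0⌋₊ : ℕ) : ℝ) ≤ x0 := Nat.floor_le (by linarith)
  have hw2 : x0 < ((⌊x0⌋₊ : ℕ) : ℝ) + 1 := Nat.lt_floor_add_one x0
  refine ⟨⌊x0⌋₊, ?_⟩
  generalize ⌊x0⌋₊ = w at hw1 hw2
  have hwge : x0 / 2 ≤ (w : ℝ) := by linarith
  have hw32 : (32 : ℝ) ≤ w := by linarith
  have hw32' : 32 ≤ w := by exact_mod_cast hw32
  have hwpos : (0 : ℝ) < w := by linarith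
  have hlogw1 : Real.log w ≤ L / (B * l) := by
    have h1 := Real.log_le_log hwpos hw1
    rwa [hx0, Real.log_exp] at h1
  have hlogw2 : L / (2 * (B * l)) ≤ Real.log w := by
    have h5 : 0 < Real.exp (L / (2 * (B * l))) := Real.exp_pos _
    have h2 : x0 = Real.exp (L / (2 * (B * l))) * Real.exp (L / (2 * (B * l))) := by
      rw [← Real.exp_add, hx0]
      congr 1
      field_simp
      norm_num
    have h3 : 2 ≤ Real.exp (L / (2 * (B * l))) := by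
      by_contra hcon
      push Not at hcon
      have : Real.exp (L / (2 * (B * l))) * Real.exp (L / (2 * (B * l))) ≤ 2 * 2 :=
        mul_le_mul hcon.le hcon.le h5.le (by norm_num)
      linarith
    have h4 : 2 * Real.exp (L / (2 * (B * l))) ≤ x0 := by
      rw [h2]
      exact mul_le_mul_of_nonneg_right h3 h5.le
    have h1 : Real.exp (L / (2 * (B * l))) ≤ w := by linarith
    have h6 := Real.log_le_log (Real.exp_pos _) h1
    rwa [Real.log_exp] at h6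
  have hlogwL : L / (B * l) ≤ L := div_le_self hL0.le (by linarith)
  refine ⟨hw32', ?_, hlogw1, hlogw2, hlogw1.trans hlogwL, lt_of_lt_of_le (by positivity) hlogw2⟩
  apply nat_half hz48
  rw [hsqrt]
  refine hw1.trans ?_
  rw [hx0]
  apply Real.exp_le_exp.mpr
  apply div_le_div_of_nonneg_left hL0.le (by norm_num)
  linarith

/-- the choice of `Y` -/
lemma Y_choice {z : ℕ} {c1 L l : ℝ} (hz48 : 2 ^ 48 ≤ z) (hc1 : 0 < c1) (hc18 : c1 ≤ 1 / 8)
    (hl : 4 ≤ l) (hL : 20 ≤ L) (hlc : l ^ 2 ≤ c1 * L) : ∃ Y : ℕ,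
      (Y : ℝ) ≤ c1 * (z * L ^ 2 / l ^ 2) ∧ c1 / 2 * (z * L ^ 2 / l ^ 2) ≤ (Y : ℝ) ∧
      (z : ℝ) ≤ (Y : ℝ) + 1 ∧ (Y : ℝ) + 1 ≤ z * L ^ 2 ∧
      (Y + 1) / (z / 2 + 1) ≤ ⌊L ^ 2⌋₊ := by
  have hzr : (2 : ℝ) ^ 48 ≤ z := by exact_mod_cast hz48
  have hzpos : (0 : ℝ) < z := lt_of_lt_of_le (by positivity) hzr
  have hz1 : (2 : ℝ) ≤ z := by linarith [show (2 : ℝ) ≤ 2 ^ 48 by norm_num]
  have hL0 : 0 < L := by linarith
  have hl0 : 0 < l := by linarith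
  set s : ℝ := c1 * (z * L ^ 2 / l ^ 2) with hs
  have hsz : (z : ℝ) ≤ s := by
    have h1 : l ^ 2 ≤ c1 * L ^ 2 := by
      refine hlc.trans ?_
      apply mul_le_mul_of_nonneg_left _ hc1.le
      nlinarith
    have h2 : s = z * ((c1 * L ^ 2) / l ^ 2) := by
      rw [hs]
      ring
    rw [h2]
    have h3 : 1 ≤ (c1 * L ^ 2) / l ^ 2 := by
      rw [le_div_iff₀ (by positivity)]
      linarith
    exact le_mul_of_one_le_right hzpos.le h3
  have hs8 : s ≤ 1 / 8 * (z * L ^ 2) := by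
    rw [hs]
    have h1 : z * L ^ 2 / l ^ 2 ≤ z * L ^ 2 := by
      apply div_le_self (by positivity)
      nlinarith
    calc c1 * (z * L ^ 2 / l ^ 2) ≤ 1 / 8 * (z * L ^ 2 / l ^ 2) := by gcongr
      _ ≤ 1 / 8 * (z * L ^ 2) := by gcongr
  have hY1 : ((⌊s⌋₊ : ℕ) : ℝ) ≤ s := Nat.floor_le (by linarith)
  have hY2 : s < ((⌊s⌋₊ : ℕ) : ℝ) + 1 := Nat.lt_floor_add_one s
  refine ⟨⌊s⌋₊, ?_⟩
  generalize ⌊s⌋₊ = Y at hY1 hY2
  have hzL : (400 : ℝ) ≤ z * L ^ 2 := by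
    have h1 : (400 : ℝ) ≤ L ^ 2 := by nlinarith
    nlinarith
  refine ⟨hY1, ?_, by linarith, by linarith, ?_⟩
  · have h1 : c1 / 2 * (z * L ^ 2 / l ^ 2) = s / 2 := by
      rw [hs]
      ring
    rw [h1]
    linarith
  · apply Nat.le_floor
    have h1 : (((Y + 1) / (z / 2 + 1) : ℕ) : ℝ) ≤ ((Y + 1 : ℕ) : ℝ) / ((z / 2 + 1 : ℕ) : ℝ) :=
      Nat.cast_div_le
    refine h1.trans ?_
    have h2 : (z : ℝ) / 2 ≤ ((z / 2 + 1 : ℕ) : ℝ) := by
      have h3 : z ≤ 2 * (z / 2 + 1) := by omega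
      have h4 : (z : ℝ) ≤ 2 * ((z / 2 + 1 : ℕ) : ℝ) := by exact_mod_cast h3
      linarith
    have h3 : (0 : ℝ) < ((z / 2 + 1 : ℕ) : ℝ) := by linarith
    rw [div_le_iff₀ h3]
    have h5 : L ^ 2 * (z / 2) ≤ L ^ 2 * ((z / 2 + 1 : ℕ) : ℝ) := by gcongr
    push_cast
    push_cast at h5
    linarith

/-- the bound for the number of primes in `S1` -/
lemma S1_bound : ∃ (C Cs : ℝ) (K : ℕ), 0 < C ∧ 0 < Cs ∧ ∀ (z w Y : ℕ) (c1 L l : ℝ),
    2 ^ 48 ≤ z → Real.log (z : ℝ) = L → Real.log L = l → 0 < c1 → 4 ≤ l → 20 ≤ L →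
    2 * L ^ 5 ≤ Real.exp (L / 2) → 32 ≤ w → 0 < Real.log w → Real.log w ≤ L →
    Real.log w ≤ L / (((K + 5 : ℕ) : ℝ) * l) →
    (Y : ℝ) ≤ c1 * (z * L ^ 2 / l ^ 2) → (z : ℝ) ≤ (Y : ℝ) + 1 → (Y : ℝ) + 1 ≤ z * L ^ 2 →
    (Y + 1) / (z / 2 + 1) ≤ ⌊L ^ 2⌋₊ →
    ((S1 w z Y).card : ℝ) ≤ (Cs + 1) * z / L ^ 3 + 6912 * C * c1 * z / l := by
  obtain ⟨C1, hC1, hS1⟩ := card_S1_le
  obtain ⟨Cs, K, hCs, hSm⟩ := smooth_le
  refine ⟨C1, Cs, K, hC1, hCs, ?_⟩
  intro z w Y c1 L l hz48 hLdef hldef hc1 hl hL hLe hw32 hlogwpos hlogwL hlogw1 hY1 hYz hYL hYM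
  have hzr : (2 : ℝ) ^ 48 ≤ z := by exact_mod_cast hz48
  have hzpos : (0 : ℝ) < z := lt_of_lt_of_le (by positivity) hzr
  have hL0 : 0 < L := by linarith
  have hl0 : 0 < l := by linarith
  have hexpL : Real.exp L = z := by rw [← hLdef, Real.exp_log hzpos]
  have hexpl : Real.exp l = L := by rw [← hldef, Real.exp_log hL0]
  have hsqrt : Real.sqrt (z : ℝ) = Real.exp (L / 2) := by
    rw [← hexpL, ← Real.exp_half]
  obtain ⟨y, hy2, hy12, hyz, hylog⟩ := exists_level hz48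
  rw [hLdef] at hylog
  have hM1 : ((⌊L ^ 2⌋₊ : ℕ) : ℝ) ≤ L ^ 2 := Nat.floor_le (by positivity)
  have hM0 : 1 ≤ ⌊L ^ 2⌋₊ := by
    apply Nat.le_floor
    push_cast
    nlinarith
  generalize ⌊L ^ 2⌋₊ = M at hM1 hM0 hYM
  have hMr : (1 : ℝ) ≤ M := by exact_mod_cast hM0
  have hlogM : Real.log M ≤ 2 * l := by
    have h1 := Real.log_le_log (by linarith) hM1
    rw [Real.log_pow, hldef] at h1
    push_cast at h1
    exact h1
  have hy1 : (1 : ℝ) ≤ y := by exact_mod_cast (by omega : 1 ≤ y)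
  have hyz2 : y ^ 2 ≤ z / 2 := by
    apply nat_half hz48
    push_cast
    calc (y : ℝ) ^ 2 ≤ (y : ℝ) ^ 12 := pow_le_pow_right₀ hy1 (by norm_num)
      _ ≤ Real.sqrt z := hy12
  have hmain := hS1 w z Y y M hy2 hyz2 hM0 hYM
  -- term 1
  have ht1 : ((Sm w (Y + 1)).card : ℝ) ≤ Cs * z / L ^ 3 := by
    have h1 := hSm w (Y + 1) (by omega) (by omega)
    refine h1.trans ?_
    push_cast
    have hlogY : L ≤ Real.log ((Y : ℝ) + 1) := by
      rw [← hLdef]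
      exact Real.log_le_log hzpos hYz
    have hBl : 0 < ((K + 5 : ℕ) : ℝ) * l := by positivity
    have h2 : ((K + 5 : ℕ) : ℝ) * l ≤ Real.log ((Y : ℝ) + 1) / Real.log w := by
      rw [le_div_iff₀ hlogwpos]
      have h3 : ((K + 5 : ℕ) : ℝ) * l * Real.log w ≤
          ((K + 5 : ℕ) : ℝ) * l * (L / (((K + 5 : ℕ) : ℝ) * l)) := by gcongr
      have h4 : ((K + 5 : ℕ) : ℝ) * l * (L / (((K + 5 : ℕ) : ℝ) * l)) = L :=
        mul_div_cancel₀ _ hBl.ne'
      linarith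
    have h5 : Real.exp (-(Real.log ((Y : ℝ) + 1) / Real.log w)) ≤ 1 / L ^ (K + 5) := by
      have h6 : Real.exp (-(Real.log ((Y : ℝ) + 1) / Real.log w)) ≤
          Real.exp (-(((K + 5 : ℕ) : ℝ) * l)) := Real.exp_le_exp.mpr (by linarith)
      have h7 : Real.exp (-(((K + 5 : ℕ) : ℝ) * l)) = 1 / L ^ (K + 5) := by
        rw [Real.exp_neg, Real.exp_nat_mul, hexpl, one_div]
      linarith
    have h6 : Real.log w ^ K ≤ L ^ K := pow_le_pow_left₀ hlogwpos.le hlogwL K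
    calc Cs * ((Y : ℝ) + 1) * Real.log w ^ K *
          Real.exp (-(Real.log ((Y : ℝ) + 1) / Real.log w))
        ≤ Cs * (z * L ^ 2) * L ^ K * (1 / L ^ (K + 5)) := by gcongr
      _ = Cs * z / L ^ 3 := by
        rw [pow_add]
        field_simp
  -- term 2
  have ht2 : 2 * M * (y : ℝ) ^ 12 ≤ z / L ^ 3 := by
    have h1 : 2 * M * (y : ℝ) ^ 12 ≤ 2 * L ^ 2 * Real.sqrt z := by gcongr
    refine h1.trans ?_
    rw [le_div_iff₀ (by positivity)]
    have h2 : Real.sqrt (z : ℝ) * Real.sqrt z = z := Real.mul_self_sqrt hzpos.le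
    have h3 : 2 * L ^ 5 ≤ Real.sqrt z := by
      rw [hsqrt]
      exact hLe
    calc 2 * L ^ 2 * Real.sqrt z * L ^ 3 = (2 * L ^ 5) * Real.sqrt z := by ring
      _ ≤ Real.sqrt z * Real.sqrt z := by gcongr
      _ = z := h2
  -- term 3
  have ht3 : C1 * Y * (1 + Real.log M) / Real.log y ^ 2 ≤ 6912 * C1 * c1 * z / l := by
    have h1 : (L / 48) ^ 2 ≤ Real.log y ^ 2 := by gcongr
    have h2 : 1 + Real.log M ≤ 3 * l := by linarith
    have h3 : 0 ≤ 1 + Real.log M := by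
      have := Real.log_natCast_nonneg M
      linarith
    calc C1 * Y * (1 + Real.log M) / Real.log y ^ 2 ≤
        C1 * (c1 * (z * L ^ 2 / l ^ 2)) * (3 * l) / (L / 48) ^ 2 := by
          gcongr
      _ = 6912 * C1 * c1 * z / l := by
          field_simp
          ring
  have e : (Cs + 1) * z / L ^ 3 = Cs * z / L ^ 3 + z / L ^ 3 := by ring
  rw [e]
  linarith

/-- the final inequality between the constants -/
lemma const_ineq {z B Cp Cs C1 c1 L l : ℝ} (hz : 0 < z) (hL : 1 ≤ L) (hl : 0 < l) (hlL : l ≤ L)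
    (hB : 0 < B) (hCp : 0 < Cp)
    (hLB : 32 * B * Cp * (Cs + 1) ≤ L) (hc1C : 221184 * B * Cp * C1 * c1 ≤ 1) :
    (2 * B * Cp * l / L) * ((Cs + 1) * z / L ^ 3 + 6912 * C1 * c1 * z / l) ≤ z / (8 * L) := by
  have hL0 : 0 < L := by linarith
  have e1 : (2 * B * Cp * l / L) * ((Cs + 1) * z / L ^ 3 + 6912 * C1 * c1 * z / l) =
      2 * B * Cp * (Cs + 1) * l * z / L ^ 4 + 13824 * B * Cp * C1 * c1 * z / L := by
    field_simp
    ring
  have e2 : z / (8 * L) = z / (16 * L) + z / (16 * L) := by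
    field_simp
    norm_num
  rw [e1, e2]
  apply add_le_add
  · rw [div_le_div_iff₀ (by positivity) (by positivity)]
    have h1 : 32 * B * Cp * (Cs + 1) * l ≤ L ^ 3 := by
      calc 32 * B * Cp * (Cs + 1) * l ≤ L * L := by gcongr
        _ = L ^ 2 * 1 := by ring
        _ ≤ L ^ 2 * L := by gcongr
        _ = L ^ 3 := by ring
    calc 2 * B * Cp * (Cs + 1) * l * z * (16 * L) =
        (32 * B * Cp * (Cs + 1) * l) * (z * L) := by ring
      _ ≤ L ^ 3 * (z * L) := by gcongr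
      _ = z * L ^ 4 := by ring
  · rw [div_le_div_iff₀ hL0 (by positivity)]
    calc 13824 * B * Cp * C1 * c1 * z * (16 * L) =
        (221184 * B * Cp * C1 * c1) * (z * L) := by ring
      _ ≤ 1 * (z * L) := by gcongr
      _ = z * L := by ring

/-- **the number of uncovered primes** -/
theorem rank_asymp : ∃ c1 : ℝ, 0 < c1 ∧ ∀ᶠ z : ℕ in atTop, ∃ w Y : ℕ, 2 ≤ w ∧ w ≤ z / 2 ∧
    c1 / 2 * (z * Real.log z ^ 2 / Real.log (Real.log z) ^ 2) ≤ (Y : ℝ) ∧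
    (Y : ℝ) ≤ z * Real.log z ^ 2 ∧
    (∏ p ∈ (Icc 3 w).filter Nat.Prime, (1 - 1 / (p : ℝ))) * (S1 w z Y).card ≤
      (((Ioc (z / 2) z).filter Nat.Prime).card : ℝ) := by
  obtain ⟨C1, Cs, K, hC1, hCs, hS1⟩ := S1_bound
  obtain ⟨Cp, hCp, hprod⟩ := prod_one_le
  set B : ℝ := ((K + 5 : ℕ) : ℝ) with hB
  have hB5 : 5 ≤ B := by
    rw [hB]
    push_cast
    have : (0 : ℝ) ≤ K := Nat.cast_nonneg K
    linarith
  have hB0 : 0 < B := by linarith
  set c1 : ℝ := min (1 / 8) (1 / (221184 * B * Cp * C1)) with hc1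
  have hc1pos : 0 < c1 := lt_min (by norm_num) (by positivity)
  have hc18 : c1 ≤ 1 / 8 := min_le_left _ _
  have hc1C : 221184 * B * Cp * C1 * c1 ≤ 1 := by
    have h1 : c1 ≤ 1 / (221184 * B * Cp * C1) := min_le_right _ _
    rw [le_div_iff₀ (by positivity)] at h1
    linarith
  clear_value c1
  refine ⟨c1, hc1pos, ?_⟩
  filter_upwards [ev_L.eventually_ge_atTop (32 * B * Cp * (Cs + 1) + 20),
    ev_l.eventually_ge_atTop 4, ev_lL (1 / (6 * B)) (by positivity),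
    ev_lL c1 hc1pos, ev_Lexp, half_primes, eventually_ge_atTop (2 ^ 48)]
    with z hLT hl hlB hlc hLe hhalf hz48
  obtain ⟨L, hLdef⟩ : ∃ L, Real.log (z : ℝ) = L := ⟨_, rfl⟩
  rw [hLdef] at hLT hl hlB hlc hLe hhalf ⊢
  obtain ⟨l, hldef⟩ : ∃ l, Real.log L = l := ⟨_, rfl⟩
  rw [hldef] at hl hlB hlc ⊢
  have hzr : (2 : ℝ) ^ 48 ≤ z := by exact_mod_cast hz48
  have hzpos : (0 : ℝ) < z := lt_of_lt_of_le (by positivity) hzr
  have hTB : 0 < 32 * B * Cp * (Cs + 1) := by positivity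
  have hL20 : 20 ≤ L := by linarith
  have hLB : 32 * B * Cp * (Cs + 1) ≤ L := by linarith
  have hL0 : 0 < L := by linarith
  have hl0 : 0 < l := by linarith
  have hlL : l ≤ L := by
    rw [← hldef]
    exact Real.log_le_self hL0.le
  have h6 : 6 * B * l ≤ L := by
    have h1 : l ≤ l ^ 2 := by nlinarith
    have h2 : l ≤ 1 / (6 * B) * L := h1.trans hlB
    rw [div_mul_eq_mul_div, one_mul, le_div_iff₀ (by positivity)] at h2
    linarith
  obtain ⟨w, hw32, hwz, hlogw1, hlogw2, hlogwL, hlogwpos⟩ := w_choice hz48 hLdef hl hB5 h6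
  obtain ⟨Y, hY1, hY2, hYz, hYL, hYM⟩ := Y_choice hz48 hc1pos hc18 hl hL20 hlc
  refine ⟨w, Y, by omega, hwz, hY2, by linarith, ?_⟩
  have hcardS1 := hS1 z w Y c1 L l hz48 hLdef hldef hc1pos hl hL20 hLe hw32 hlogwpos hlogwL hlogw1
    hY1 hYz hYL hYM
  have hprodw : (∏ p ∈ (Icc 3 w).filter Nat.Prime, (1 - 1 / (p : ℝ))) ≤ 2 * B * Cp * l / L := by
    refine (hprod w (by omega)).trans ?_
    rw [div_le_div_iff₀ hlogwpos hL0]
    have h1 : Cp * L = 2 * B * Cp * l * (L / (2 * (B * l))) := by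
      field_simp
    rw [h1]
    gcongr
  have hprod0 : 0 ≤ ∏ p ∈ (Icc 3 w).filter Nat.Prime, (1 - 1 / (p : ℝ)) := by
    refine prod_nonneg fun p hp => ?_
    rw [Finset.mem_filter] at hp
    have h2 : (1 : ℝ) ≤ p := by exact_mod_cast hp.2.one_le
    rw [sub_nonneg, div_le_one (by linarith)]
    exact h2
  refine le_trans ?_ hhalf
  calc (∏ p ∈ (Icc 3 w).filter Nat.Prime, (1 - 1 / (p : ℝ))) * ((S1 w z Y).card : ℝ)
      ≤ (2 * B * Cp * l / L) * ((Cs + 1) * z / L ^ 3 + 6912 * C1 * c1 * z / l) :=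
        mul_le_mul hprodw hcardS1 (Nat.cast_nonneg _) (by positivity)
    _ ≤ z / (8 * L) := const_ineq hzpos (by linarith) hl0 hlL hB0 hCp hLB hc1C

end Pool.Agent.LevyThin
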