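import Mathlib
import Pool.Agent.LevyThin.RankC

/-!
# Odd numbers `m` for which the least `p` with `m - 2 p` prime is large
-/

namespace Pool.Agent.LevyThin

open Finset Filter

/-- the Chinese remainder theorem -/
lemma crt (z : ℕ) (hz : 2 ≤ z) (r : ℕ → ℕ) : ∃ m : ℕ, Odd m ∧ primorial z ≤ m ∧
    m < 2 * primorial z ∧ ∀ l : ℕ, l.Prime → l ≠ 2 → l ≤ z → m ≡ r l [MOD l] := by
  classical
  set t := (range (z + 1)).filter Nat.Prime with ht
  have hpp : Set.Pairwise (t : Set ℕ) (Function.onFun Nat.Coprime (fun i : ℕ => i)) := by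
    intro a ha b hb hab
    rw [Finset.mem_coe, ht, Finset.mem_filter] at ha hb
    exact (Nat.coprime_primes ha.2 hb.2).mpr hab
  have hs : ∀ i ∈ t, (fun i : ℕ => i) i ≠ 0 := by
    intro i hi
    rw [ht, Finset.mem_filter] at hi
    exact hi.2.ne_zero
  obtain ⟨k, hk⟩ := Nat.chineseRemainderOfFinset (fun l => if l = 2 then 1 else r l)
    (fun i : ℕ => i) t hs hpp
  have hprod : ∏ i ∈ t, (fun i : ℕ => i) i = primorial z := rfl
  have hpos : 0 < primorial z := primorial_pos z
  -- reduce modulo the primorial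
  have hdvd : ∀ l ∈ t, l ∣ primorial z := by
    intro l hl
    rw [← hprod]
    exact Finset.dvd_prod_of_mem _ hl
  set k' := k % primorial z with hk'
  have hk'' : ∀ l ∈ t, k' ≡ (if l = 2 then 1 else r l) [MOD l] := by
    intro l hl
    have h1 : k' ≡ k [MOD l] := (Nat.mod_modEq k (primorial z)).of_dvd (hdvd l hl)
    exact h1.trans (hk l hl)
  have hlt : k' < primorial z := Nat.mod_lt _ hpos
  refine ⟨k' + primorial z, ?_, by omega, by omega, ?_⟩
  · have h2 : 2 ∈ t := by
      rw [ht, Finset.mem_filter, Finset.mem_range]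
      exact ⟨by omega, Nat.prime_two⟩
    have h3 := hk'' 2 h2
    simp only [if_true] at h3
    have h4 : k' + primorial z ≡ 1 + 0 [MOD 2] :=
      h3.add ((Nat.modEq_zero_iff_dvd).mpr (hdvd 2 h2))
    rw [Nat.odd_iff]
    have h5 : (k' + primorial z) % 2 = (1 + 0) % 2 := h4
    rw [h5]
  · intro l hl hl2 hlz
    have h2 : l ∈ t := by
      rw [ht, Finset.mem_filter, Finset.mem_range]
      exact ⟨by omega, hl⟩
    have h3 := hk'' l h2
    simp only [hl2, if_false] at h3
    have h4 := h3.add ((Nat.modEq_zero_iff_dvd).mpr (hdvd l h2))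
    simpa using h4

lemma ev_theta : ∀ᶠ z : ℕ in atTop, (z : ℝ) / 2 ≤ Chebyshev.theta z := by
  have h := Pool.Agent.Lib.PNT.theta
  have h1 : ∀ᶠ x : ℝ in atTop, 1 / 2 < Chebyshev.theta x / x :=
    h.eventually (lt_mem_nhds (by norm_num))
  have h2 := tendsto_natCast_atTop_atTop (R := ℝ) |>.eventually h1
  filter_upwards [h2, eventually_gt_atTop 0] with z hz hz0
  have hz' : (0 : ℝ) < z := by exact_mod_cast hz0
  rw [lt_div_iff₀ hz'] at hz
  linarith

lemma ev_cube : ∀ᶠ z : ℕ in atTop, 4 * (z : ℝ) ^ 3 ≤ Real.exp (z / 2) := by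
  have h : ∀ᶠ x : ℝ in atTop, 4 * x ^ 3 ≤ Real.exp (x / 2) := by
    have h1 := (isLittleO_pow_exp_pos_mul_atTop (k := 3) (b := (1 / 2 : ℝ)) (by norm_num)).bound
      (c := 1 / 4) (by norm_num)
    filter_upwards [h1] with x hx
    rw [Real.norm_eq_abs, Real.norm_eq_abs, abs_of_pos (Real.exp_pos _)] at hx
    have e : (1 : ℝ) / 2 * x = x / 2 := by ring
    rw [e] at hx
    have := (le_abs_self _).trans hx
    linarith
  exact tendsto_natCast_atTop_atTop (R := ℝ) |>.eventually h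

/-- **large values of the least summand** -/
theorem rank_main : ∃ c : ℝ, 0 < c ∧ ∀ N : ℕ, ∃ m : ℕ, N ≤ m ∧ Odd m ∧
    ∀ p q : ℕ, p.Prime → q.Prime → m = 2 * p + q →
      c * (Real.log m * Real.log (Real.log m) ^ 2 / Real.log (Real.log (Real.log m)) ^ 2) <
        (p : ℝ) := by
  obtain ⟨c1, hc1, hasy⟩ := rank_asymp
  refine ⟨c1 / 128, by positivity, fun N => ?_⟩
  have hev : ∀ᶠ z : ℕ in atTop, True := Eventually.of_forall fun _ => trivial
  obtain ⟨z, hz⟩ := ((hasy.and ((ev_L.eventually_ge_atTop 20).and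
    ((ev_l.eventually_ge_atTop 4).and (ev_theta.and (ev_cube.and
      (eventually_ge_atTop (max N (2 ^ 48)))))))).exists)
  obtain ⟨⟨w, Y, hw2, hwz, hY1, hY2, hcov⟩, hL20, hl4, hth, hcube, hzN⟩ := hz
  have hzN1 : N ≤ z := (le_max_left _ _).trans hzN
  have hz48 : 2 ^ 48 ≤ z := (le_max_right _ _).trans hzN
  have hzr : (2 : ℝ) ^ 48 ≤ z := by exact_mod_cast hz48
  have hz1 : (8 : ℝ) ≤ z := by linarith [show (8 : ℝ) ≤ 2 ^ 48 by norm_num]
  have hzpos : (0 : ℝ) < z := by linarith
  obtain ⟨r, hr⟩ := cover w z Y hw2 hwz hcov (by omega)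
  obtain ⟨m, hmodd, hm1, hm2, hmr⟩ := crt z (by omega) r
  obtain ⟨L, hLdef⟩ : ∃ L, Real.log (z : ℝ) = L := ⟨_, rfl⟩
  rw [hLdef] at hL20 hl4 hY1 hY2
  obtain ⟨l, hldef⟩ : ∃ l, Real.log L = l := ⟨_, rfl⟩
  rw [hldef] at hl4 hY1
  -- the size of the primorial
  have hprim : Chebyshev.theta (z : ℝ) = Real.log (primorial z) := by
    rw [Chebyshev.theta_eq_log_primorial, Nat.floor_natCast]
  have hprpos : (0 : ℝ) < (primorial z : ℝ) := by exact_mod_cast primorial_pos z
  have hprge : Real.exp (z / 2) ≤ (primorial z : ℝ) := by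
    rw [← Real.exp_log hprpos, ← hprim]
    exact Real.exp_le_exp.mpr hth
  have hmr1 : (primorial z : ℝ) ≤ m := by exact_mod_cast hm1
  have hmr2 : (m : ℝ) ≤ 2 * primorial z := by exact_mod_cast hm2.le
  have hmpos : (0 : ℝ) < m := by linarith
  have hLz : L ≤ z := by
    rw [← hLdef]
    exact Real.log_le_self hzpos.le
  have hbig : 2 * (Y : ℝ) + z < m := by
    have h1 : L ^ 2 ≤ (z : ℝ) ^ 2 := pow_le_pow_left₀ (by linarith) hLz 2
    have h2 : (z : ℝ) * L ^ 2 ≤ z * z ^ 2 := by gcongr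
    have h3 : (z : ℝ) * z ^ 2 = z ^ 3 := by ring
    have h4 : (z : ℝ) < z ^ 3 := by nlinarith
    linarith
  have hNm : N ≤ m := by
    have h1 : (z : ℝ) < m := by
      have : (0 : ℝ) ≤ Y := Nat.cast_nonneg Y
      linarith
    have h2 : z < m := by exact_mod_cast h1
    omega
  refine ⟨m, hNm, hmodd, ?_⟩
  intro p q hp hq hmpq
  -- `p > Y`
  have hpY : Y < p := by
    by_contra hcon
    push Not at hcon
    obtain ⟨ll, hll, hll2, hllz, hmod⟩ := hr p hp hcon
    have h1 := hmr ll hll hll2 hllz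
    have h2 : 2 * p + q ≡ 2 * p + 0 [MOD ll] := by
      rw [← hmpq, add_zero]
      exact h1.trans hmod.symm
    have h3 : q ≡ 0 [MOD ll] := Nat.ModEq.add_left_cancel' _ h2
    have h4 : ll ∣ q := (Nat.modEq_zero_iff_dvd).mp h3
    have h5 : ll = q := (Nat.prime_dvd_prime_iff_eq hll hq).mp h4
    have h6 : (m : ℝ) ≤ 2 * Y + z := by
      have h7 : m ≤ 2 * Y + z := by omega
      exact_mod_cast h7
    linarith
  have hpY' : (Y : ℝ) < p := by exact_mod_cast hpY
  -- the size of `m`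
  have hlog2 : Real.log 2 < 0.6931471808 := Real.log_two_lt_d9
  have ht1 : (z : ℝ) / 2 ≤ Real.log m := by
    have h1 : Real.log (primorial z) ≤ Real.log m := Real.log_le_log hprpos hmr1
    rw [← hprim] at h1
    linarith
  have ht2 : Real.log m ≤ 2 * z := by
    have h1 : Real.log m ≤ Real.log (2 * primorial z) := Real.log_le_log hmpos hmr2
    rw [Real.log_mul (by norm_num) hprpos.ne', ← hprim] at h1
    have h2 := Chebyshev.theta_le_log4_mul_x (x := (z : ℝ)) hzpos.le
    have h3 : Real.log 4 = 2 * Real.log 2 := by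
      rw [show (4 : ℝ) = 2 ^ 2 by norm_num, Real.log_pow]
      norm_num
    rw [h3] at h2
    nlinarith
  have htpos : 0 < Real.log m := by linarith
  have hu1 : L / 2 ≤ Real.log (Real.log m) := by
    have h1 : Real.log ((z : ℝ) / 2) ≤ Real.log (Real.log m) := Real.log_le_log (by linarith) ht1
    rw [Real.log_div hzpos.ne' (by norm_num), hLdef] at h1
    linarith
  have hu2 : Real.log (Real.log m) ≤ 2 * L := by
    have h1 : Real.log (Real.log m) ≤ Real.log (2 * z) := Real.log_le_log htpos ht2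
    rw [Real.log_mul (by norm_num) hzpos.ne', hLdef] at h1
    linarith
  have hupos : 0 < Real.log (Real.log m) := by linarith
  have hv : l / 2 ≤ Real.log (Real.log (Real.log m)) := by
    have h1 : Real.log (L / 2) ≤ Real.log (Real.log (Real.log m)) :=
      Real.log_le_log (by linarith) hu1
    rw [Real.log_div (by linarith) (by norm_num), hldef] at h1
    linarith
  have hl0 : 0 < l := by linarith
  have hL0 : 0 < L := by linarith
  have hfin : Real.log m * Real.log (Real.log m) ^ 2 / Real.log (Real.log (Real.log m)) ^ 2 ≤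
      2 * z * (2 * L) ^ 2 / (l / 2) ^ 2 := by
    gcongr
  have hfin2 : 2 * z * (2 * L) ^ 2 / (l / 2) ^ 2 = 32 * (z * L ^ 2 / l ^ 2) := by
    field_simp
    ring
  rw [hfin2] at hfin
  have hpos2 : 0 < z * L ^ 2 / l ^ 2 := by positivity
  calc c1 / 128 * (Real.log m * Real.log (Real.log m) ^ 2 /
        Real.log (Real.log (Real.log m)) ^ 2) ≤ c1 / 128 * (32 * (z * L ^ 2 / l ^ 2)) := by gcongr
    _ = c1 / 4 * (z * L ^ 2 / l ^ 2) := by ring
    _ ≤ c1 / 2 * (z * L ^ 2 / l ^ 2) := by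
        apply mul_le_mul_of_nonneg_right _ hpos2.le
        linarith
    _ ≤ Y := hY1
    _ < p := hpY'

end Pool.Agent.LevyThin
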